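import Pool.Agent.Work.MP_20070e_gt.Defs

set_option autoImplicit false

open Matrix Topology Metric ContDiff

namespace Pool.Agent.Work.MP_20070e_gt

/-- Mixed Lipschitz estimate for a `C²` function vanishing on a slice. -/
theorem mixed_estimate {E F : Type} [NormedAddCommGroup E] [NormedSpace ℝ E]
    [NormedAddCommGroup F] [NormedSpace ℝ F] (Ψ : E × F → ℝ) (a : E) (b : F)
    (h : ContDiffAt ℝ 2 Ψ (a, b)) (h0 : ∀ᶠ z in 𝓝 b, Ψ (a, z) = 0) :
    ∃ C : ℝ, 0 < C ∧ ∃ ε : ℝ, 0 < ε ∧ ∀ u ∈ ball a ε, ∀ z ∈ ball b ε, ∀ z' ∈ ball b ε,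
      |Ψ (u, z) - Ψ (u, z')| ≤ C * ‖u - a‖ * ‖z - z'‖ ∧ |Ψ (u, z)| ≤ C * ‖u - a‖ := by
  have h1 : ContDiffAt ℝ 1 Ψ (a, b) := h.of_le (by norm_num)
  obtain ⟨K₁, t₁, ht₁, hL₁⟩ := h1.exists_lipschitzOnWith
  have hd : ContDiffAt ℝ 1 (fderiv ℝ Ψ) (a, b) := h.fderiv_right (by norm_num)
  obtain ⟨K₂, t₂, ht₂, hL₂⟩ := hd.exists_lipschitzOnWith
  have hdiff : ∀ᶠ p in 𝓝 (a, b), DifferentiableAt ℝ Ψ p := by
    have := h1.eventually (by simp)
    filter_upwards [this] with p hp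
    exact hp.differentiableAt (by norm_num)
  obtain ⟨ε₀, hε₀, hball⟩ := Metric.mem_nhds_iff.1 (Filter.inter_mem (Filter.inter_mem ht₁ ht₂) hdiff)
  obtain ⟨ε₁, hε₁, hball1⟩ := Metric.mem_nhds_iff.1 h0
  set ε := min ε₀ ε₁ with hε
  have hεpos : 0 < ε := lt_min hε₀ hε₁
  have hmem : ∀ u ∈ ball a ε, ∀ z ∈ ball b ε, (u, z) ∈ ball (a, b) ε₀ := by
    intro u hu z hz
    rw [mem_ball, Prod.dist_eq, max_lt_iff]
    exact ⟨lt_of_lt_of_le hu (min_le_left _ _), lt_of_lt_of_le hz (min_le_left _ _)⟩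
  have haa : a ∈ ball a ε := mem_ball_self hεpos
  refine ⟨K₁ + K₂ + 1, by positivity, ε, hεpos, ?_⟩
  intro u hu z hz z' hz'
  constructor
  · -- mean value inequality in the second variable
    have hder : ∀ w ∈ ball b ε, HasFDerivWithinAt (fun w => Ψ (u, w))
        ((fderiv ℝ Ψ (u, w)).comp (ContinuousLinearMap.inr ℝ E F)) (ball b ε) w := by
      intro w hw
      have hd1 : HasFDerivAt Ψ (fderiv ℝ Ψ (u, w)) (u, w) :=
        (hball (hmem u hu w hw)).2.hasFDerivAt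
      have hd2 : HasFDerivAt (fun w : F => (u, w)) (ContinuousLinearMap.inr ℝ E F) w :=
        hasFDerivAt_prodMk_right u w
      exact (HasFDerivAt.comp w hd1 hd2).hasFDerivWithinAt
    have hbound : ∀ w ∈ ball b ε,
        ‖(fderiv ℝ Ψ (u, w)).comp (ContinuousLinearMap.inr ℝ E F)‖ ≤ K₂ * ‖u - a‖ := by
      intro w hw
      have hzero : (fderiv ℝ Ψ (a, w)).comp (ContinuousLinearMap.inr ℝ E F) = 0 := by
        have hd1 : HasFDerivAt Ψ (fderiv ℝ Ψ (a, w)) (a, w) :=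
          (hball (hmem a haa w hw)).2.hasFDerivAt
        have hd2 : HasFDerivAt (fun w : F => (a, w)) (ContinuousLinearMap.inr ℝ E F) w :=
          hasFDerivAt_prodMk_right a w
        have hc := HasFDerivAt.comp w hd1 hd2
        have hev : (Ψ ∘ fun w : F => (a, w)) =ᶠ[𝓝 w] fun _ => 0 := by
          have hwb : ball b ε ∈ 𝓝 w := isOpen_ball.mem_nhds hw
          filter_upwards [hwb] with v hv
          exact hball1 (mem_ball.2 (lt_of_lt_of_le (mem_ball.1 hv) (min_le_right _ _)))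
        have h3 : HasFDerivAt (Ψ ∘ fun w : F => (a, w)) (0 : F →L[ℝ] ℝ) w :=
          (hasFDerivAt_const (0 : ℝ) w).congr_of_eventuallyEq hev
        exact hc.unique h3
      have hsub : (fderiv ℝ Ψ (u, w)).comp (ContinuousLinearMap.inr ℝ E F) =
          (fderiv ℝ Ψ (u, w) - fderiv ℝ Ψ (a, w)).comp (ContinuousLinearMap.inr ℝ E F) := by
        rw [ContinuousLinearMap.sub_comp, hzero, sub_zero]
      rw [hsub]
      calc ‖(fderiv ℝ Ψ (u, w) - fderiv ℝ Ψ (a, w)).comp (ContinuousLinearMap.inr ℝ E F)‖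
          ≤ ‖fderiv ℝ Ψ (u, w) - fderiv ℝ Ψ (a, w)‖ * ‖ContinuousLinearMap.inr ℝ E F‖ :=
            ContinuousLinearMap.opNorm_comp_le _ _
        _ ≤ (K₂ * ‖u - a‖) * 1 := by
            apply mul_le_mul
            · have h5 := hL₂.dist_le_mul (u, w) (hball (hmem u hu w hw)).1.2 (a, w)
                (hball (hmem a haa w hw)).1.2
              rw [dist_eq_norm, dist_eq_norm] at h5
              refine h5.trans (le_of_eq ?_)
              congr 1
              simp [Prod.norm_def]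
            · exact ContinuousLinearMap.norm_inr_le_one ℝ E F
            · positivity
            · positivity
        _ = K₂ * ‖u - a‖ := mul_one _
    have hmv := Convex.norm_image_sub_le_of_norm_hasFDerivWithin_le hder hbound
      (convex_ball b ε) hz' hz
    rw [Real.norm_eq_abs] at hmv
    refine hmv.trans ?_
    gcongr
    linarith [K₁.2]
  · have h5 := hL₁.dist_le_mul (u, z) (hball (hmem u hu z hz)).1.1 (a, z)
      (hball (hmem a haa z hz)).1.1
    have h6 : Ψ (a, z) = 0 := hball1 (mem_ball.2 (lt_of_lt_of_le (mem_ball.1 hz) (min_le_right _ _)))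
    rw [dist_eq_norm, dist_eq_norm, h6, sub_zero, Real.norm_eq_abs] at h5
    refine h5.trans ?_
    have h7 : ‖(u, z) - (a, z)‖ = ‖u - a‖ := by simp [Prod.norm_def]
    rw [h7]
    gcongr
    have : (0 : ℝ) ≤ K₂ := K₂.2
    linarith

end Pool.Agent.Work.MP_20070e_gt
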