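import Pool.Agent.Work.MP_20070e_gt.C1

set_option autoImplicit false

open Matrix Topology Metric ContDiff

namespace Pool.Agent.Work.MP_20070e_gt

theorem isInducing_ent {n : ℕ} : IsInducing (ent : SLn n → (Fin n → Fin n → ℝ)) :=
  IsInducing.subtypeVal

theorem continuous_ent {n : ℕ} : Continuous (ent : SLn n → (Fin n → Fin n → ℝ)) :=
  isInducing_ent.continuous

theorem nhds_one_eq {n : ℕ} (s : Set (SLn n)) (hs : s ∈ 𝓝 (1 : SLn n)) :
    ∃ ε > 0, ∀ h : SLn n, ‖ent h - ent (1 : SLn n)‖ < ε → h ∈ s := by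
  rw [isInducing_ent.nhds_eq_comap, Filter.mem_comap] at hs
  obtain ⟨t, ht, hts⟩ := hs
  obtain ⟨ε, hε, hb⟩ := Metric.mem_nhds_iff.1 ht
  refine ⟨ε, hε, fun h hh => hts (hb ?_)⟩
  rw [mem_ball, dist_eq_norm]
  exact hh

/-- The data of a (germ along the sphere of a) local action on `ℝⁿ ∖ 0`. -/
structure LocAct (n : ℕ) where
  D : Set (SLn n × Eu n)
  θ : SLn n × Eu n → Eu n
  isOpen : IsOpen D
  sph : ∀ g : SLn n, ∀ x ∈ sphere (0 : Eu n) 1, (g, x) ∈ D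
  ne_zero : ∀ p ∈ D, θ p ≠ 0
  cont : ContinuousOn θ D
  smooth : ∀ x ∈ sphere (0 : Eu n) 1, ∃ Θ : (Fin n → Fin n → ℝ) × Eu n → Eu n,
    ContDiffAt ℝ 2 Θ (ent 1, x) ∧
      ∀ᶠ p in 𝓝 (ent (1 : SLn n), x), ∀ g : SLn n, ent g = p.1 → (g, p.2) ∈ D →
        Θ p = θ (g, p.2)
  one : ∀ x, (1, x) ∈ D → θ (1, x) = x
  mul : ∀ g h x, (h, x) ∈ D → (g, θ (h, x)) ∈ D → (g * h, x) ∈ D →
    θ (g, θ (h, x)) = θ (g * h, x)

namespace LocAct

variable {n : ℕ} (A : LocAct n)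

/-- radial coordinate of the displacement -/
noncomputable def τ (g : SLn n) (x : Eu n) : ℝ := Real.log ‖A.θ (g, x)‖

theorem local_est (x : Eu n) (hx : x ∈ sphere (0 : Eu n) 1) :
    ∃ C : ℝ, 0 < C ∧ ∃ ε : ℝ, 0 < ε ∧ ∀ h : SLn n, ‖ent h - ent (1 : SLn n)‖ < ε →
      ∀ z ∈ ball x ε, ∀ z' ∈ ball x ε, (h, z) ∈ A.D ∧
        |(A.τ h z - Real.log ‖z‖) - (A.τ h z' - Real.log ‖z'‖)| ≤
          C * ‖ent h - ent (1 : SLn n)‖ * ‖z - z'‖ ∧
        |A.τ h z - Real.log ‖z‖| ≤ C * ‖ent h - ent (1 : SLn n)‖ := by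
  obtain ⟨Θ, hΘ, hev⟩ := A.smooth x hx
  have hxne : x ≠ 0 := by
    rintro rfl
    simp at hx
  have hD1 : (1, x) ∈ A.D := A.sph 1 x hx
  have hval : Θ (ent (1 : SLn n), x) = x := by
    have := hev.self_of_nhds 1 rfl hD1
    rw [this, A.one x hD1]
  -- the function Ψ
  set Ψ : (Fin n → Fin n → ℝ) × Eu n → ℝ := fun p => Real.log ‖Θ p‖ - Real.log ‖p.2‖ with hΨ
  have hΨd : ContDiffAt ℝ 2 Ψ (ent (1 : SLn n), x) := by
    apply ContDiffAt.sub
    · apply ContDiffAt.log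
      · apply ContDiffAt.norm ℝ hΘ
        rw [hval]; exact hxne
      · rw [hval]; exact norm_ne_zero_iff.2 hxne
    · apply ContDiffAt.log
      · apply ContDiffAt.norm ℝ contDiffAt_snd
        exact hxne
      · exact norm_ne_zero_iff.2 hxne
  -- neighbourhoods
  obtain ⟨ε₁, hε₁, hb₁⟩ := Metric.mem_nhds_iff.1 hev
  have hDn : A.D ∈ 𝓝 ((1 : SLn n), x) := A.isOpen.mem_nhds hD1
  rw [nhds_prod_eq, Filter.mem_prod_iff] at hDn
  obtain ⟨s, hs, t, ht, hst⟩ := hDn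
  obtain ⟨ε₂, hε₂, hb₂⟩ := nhds_one_eq s hs
  obtain ⟨ε₃, hε₃, hb₃⟩ := Metric.mem_nhds_iff.1 ht
  have h0 : ∀ᶠ z in 𝓝 x, Ψ (ent (1 : SLn n), z) = 0 := by
    have h1 : ball x (min ε₁ ε₃) ∈ 𝓝 x := ball_mem_nhds _ (lt_min hε₁ hε₃)
    filter_upwards [h1] with z hz
    have hz1 : z ∈ ball x ε₁ := ball_subset_ball (min_le_left _ _) hz
    have hz3 : z ∈ ball x ε₃ := ball_subset_ball (min_le_right _ _) hz
    have hzD : ((1 : SLn n), z) ∈ A.D := hst ⟨hb₂ 1 (by simpa using hε₂), hb₃ hz3⟩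
    have hp : (ent (1 : SLn n), z) ∈ ball (ent (1 : SLn n), x) ε₁ := by
      rw [mem_ball, Prod.dist_eq, max_lt_iff]
      exact ⟨by simpa using hε₁, hz1⟩
    have := hb₁ hp 1 rfl hzD
    simp only [hΨ]
    rw [this, A.one z hzD, sub_self]
  obtain ⟨C, hC, ε₄, hε₄, hmix⟩ := mixed_estimate Ψ (ent (1 : SLn n)) x hΨd h0
  refine ⟨C, hC, min (min ε₁ ε₂) (min ε₃ ε₄), lt_min (lt_min hε₁ hε₂) (lt_min hε₃ hε₄), ?_⟩
  intro h hh z hz z' hz'
  have hh1 : ‖ent h - ent (1 : SLn n)‖ < ε₁ :=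
    lt_of_lt_of_le hh ((min_le_left _ _).trans (min_le_left _ _))
  have hh2 : ‖ent h - ent (1 : SLn n)‖ < ε₂ :=
    lt_of_lt_of_le hh ((min_le_left _ _).trans (min_le_right _ _))
  have hh4 : ‖ent h - ent (1 : SLn n)‖ < ε₄ :=
    lt_of_lt_of_le hh ((min_le_right _ _).trans (min_le_right _ _))
  have key : ∀ w ∈ ball x (min (min ε₁ ε₂) (min ε₃ ε₄)), (h, w) ∈ A.D ∧
      Ψ (ent h, w) = A.τ h w - Real.log ‖w‖ := by
    intro w hw
    have hw1 : w ∈ ball x ε₁ := ball_subset_ball ((min_le_left _ _).trans (min_le_left _ _)) hw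
    have hw3 : w ∈ ball x ε₃ := ball_subset_ball ((min_le_right _ _).trans (min_le_left _ _)) hw
    have hwD : (h, w) ∈ A.D := hst ⟨hb₂ h hh2, hb₃ hw3⟩
    refine ⟨hwD, ?_⟩
    have hp : (ent h, w) ∈ ball (ent (1 : SLn n), x) ε₁ := by
      rw [mem_ball, Prod.dist_eq, max_lt_iff, dist_eq_norm]
      exact ⟨hh1, hw1⟩
    have := hb₁ hp h rfl hwD
    simp only [hΨ, τ]
    rw [this]
  have hz4 : z ∈ ball x ε₄ := ball_subset_ball ((min_le_right _ _).trans (min_le_right _ _)) hz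
  have hz4' : z' ∈ ball x ε₄ := ball_subset_ball ((min_le_right _ _).trans (min_le_right _ _)) hz'
  have hm := hmix (ent h) (by rw [mem_ball, dist_eq_norm]; exact hh4) z hz4 z' hz4'
  rw [(key z hz).2, (key z' hz').2] at hm
  exact ⟨(key z hz).1, hm.1, hm.2⟩

/-- uniform version along the sphere -/
theorem uniform_est : ∃ C : ℝ, 0 < C ∧ ∃ δ : ℝ, 0 < δ ∧ ∀ h : SLn n,
    ‖ent h - ent (1 : SLn n)‖ < δ → ∀ y ∈ sphere (0 : Eu n) 1,
      |A.τ h y| ≤ C * ‖ent h - ent (1 : SLn n)‖ ∧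
      ∀ s : ℝ, |s| < δ → (h, Real.exp s • y) ∈ A.D ∧
        |A.τ h (Real.exp s • y) - A.τ h y - s| ≤ C * ‖ent h - ent (1 : SLn n)‖ * |s| := by
  have hcomp : IsCompact (sphere (0 : Eu n) 1) := isCompact_sphere _ _
  choose! C hC ε hε hest using fun x hx => A.local_est x hx
  obtain ⟨T, hTS, hcov⟩ := hcomp.elim_nhds_subcover (fun x => ball x (ε x / 2))
    (fun x hx => ball_mem_nhds x (half_pos (hε x hx)))
  set C₀ : ℝ := 1 + ∑ x ∈ T, C x with hC₀
  have hCle : ∀ x ∈ T, C x ≤ C₀ := by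
    intro x hx
    have : C x ≤ ∑ x ∈ T, C x := Finset.single_le_sum (fun y hy => (hC y (hTS y hy)).le) hx
    linarith
  have hC₀pos : 0 < C₀ := by
    have : 0 ≤ ∑ x ∈ T, C x := Finset.sum_nonneg (fun y hy => (hC y (hTS y hy)).le)
    linarith
  have hδex : ∃ δ₀ : ℝ, 0 < δ₀ ∧ ∀ x ∈ T, δ₀ ≤ ε x := by
    clear hcov hC₀ hCle hC₀pos C₀
    induction T using Finset.induction_on with
    | empty => exact ⟨1, one_pos, by simp⟩
    | insert a T ha ih =>
      obtain ⟨d, hd, hdT⟩ := ih (fun x hx => hTS x (Finset.mem_insert_of_mem hx))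
      refine ⟨min d (ε a), lt_min hd (hε a (hTS a (Finset.mem_insert_self a T))), ?_⟩
      intro x hx
      rcases Finset.mem_insert.1 hx with rfl | hx
      · exact min_le_right _ _
      · exact (min_le_left _ _).trans (hdT x hx)
  obtain ⟨δ₀, hδ₀, hδle⟩ := hδex
  refine ⟨2 * C₀, by positivity, min 1 (δ₀ / 4), lt_min one_pos (by positivity), ?_⟩
  intro h hh y hy
  have hcy := hcov hy
  simp only [Set.mem_iUnion] at hcy
  obtain ⟨x, hxT, hyx⟩ := hcy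
  have hxS := hTS x hxT
  have hhε : ‖ent h - ent (1 : SLn n)‖ < ε x := by
    have h1 : min 1 (δ₀ / 4) ≤ δ₀ / 4 := min_le_right _ _
    have h2 := hδle x hxT
    linarith
  have hyn : ‖y‖ = 1 := mem_sphere_zero_iff_norm.1 hy
  have hyb : y ∈ ball x (ε x) := ball_subset_ball (by linarith [hε x hxS]) hyx
  constructor
  · have h1 := (hest x hxS h hhε y hyb y hyb).2.2
    rw [hyn, Real.log_one, sub_zero] at h1
    refine h1.trans ?_
    have := hCle x hxT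
    gcongr
    linarith
  · intro s hs
    have hs1 : |s| ≤ 1 := (hs.trans_le (min_le_left _ _)).le
    have hs2 : |s| < δ₀ / 4 := hs.trans_le (min_le_right _ _)
    have he : |Real.exp s - 1| ≤ 2 * |s| := Real.abs_exp_sub_one_le hs1
    have hdist : ‖Real.exp s • y - y‖ = |Real.exp s - 1| := by
      have : Real.exp s • y - y = (Real.exp s - 1) • y := by rw [sub_smul, one_smul]
      rw [this, norm_smul, hyn, mul_one, Real.norm_eq_abs]
    have hzb : Real.exp s • y ∈ ball x (ε x) := by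
      rw [mem_ball]
      have h1 : dist (Real.exp s • y) x ≤ dist (Real.exp s • y) y + dist y x :=
        dist_triangle _ _ _
      rw [dist_eq_norm (Real.exp s • y) y, hdist] at h1
      have h2 : dist y x < ε x / 2 := hyx
      have h3 := hδle x hxT
      linarith
    obtain ⟨hD, hm, -⟩ := hest x hxS h hhε (Real.exp s • y) hzb y hyb
    refine ⟨hD, ?_⟩
    rw [hyn, Real.log_one, sub_zero, norm_smul, hyn, mul_one, Real.norm_eq_abs, abs_of_pos
      (Real.exp_pos s), Real.log_exp, hdist] at hm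
    have heq : A.τ h (Real.exp s • y) - A.τ h y - s = A.τ h (Real.exp s • y) - s - A.τ h y := by
      ring
    rw [heq]
    refine hm.trans ?_
    have h4 := hCle x hxT
    calc C x * ‖ent h - ent (1 : SLn n)‖ * |Real.exp s - 1|
        ≤ C₀ * ‖ent h - ent (1 : SLn n)‖ * (2 * |s|) := by
          gcongr
      _ = 2 * C₀ * ‖ent h - ent (1 : SLn n)‖ * |s| := by ring

end LocAct

end Pool.Agent.Work.MP_20070e_gt
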