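import Pool.Agent.Work.MP_20070e_gt.C2

set_option autoImplicit false

open Matrix Topology Metric ContDiff

namespace Pool.Agent.Work.MP_20070e_gt

/-- the difference of entries for a conjugated transvection -/
theorem ent_conj_transvection {n : ℕ} {i j : Fin n} (hij : i ≠ j) (g : SLn n) (s : ℝ) :
    ent (g * SpecialLinearGroup.transvection hij s * g⁻¹) - ent (1 : SLn n) =
      s • (fun a b => (g.1 * Matrix.single i j (1 : ℝ) * (g⁻¹).1) a b) := by
  have h1 : (g * SpecialLinearGroup.transvection hij s * g⁻¹).1 =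
      1 + s • (g.1 * Matrix.single i j (1 : ℝ) * (g⁻¹).1) := by
    have h2 : (g * SpecialLinearGroup.transvection hij s * g⁻¹).1 =
        g.1 * (1 + Matrix.single i j s) * (g⁻¹).1 := rfl
    rw [h2, mul_add, mul_one, add_mul]
    have h3 : g.1 * (g⁻¹).1 = 1 := by
      have := congrArg Subtype.val (mul_inv_cancel g)
      exact this
    rw [h3]
    congr 1
    have h4 : (Matrix.single i j s : Matrix (Fin n) (Fin n) ℝ) = s • Matrix.single i j (1 : ℝ) := by
      rw [Matrix.smul_single, smul_eq_mul, mul_one]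
    rw [h4, Matrix.mul_smul, Matrix.smul_mul]
  funext a b
  have h5 : (1 : SLn n).1 = (1 : Matrix (Fin n) (Fin n) ℝ) := rfl
  simp only [Pi.sub_apply, Pi.smul_apply, ent, h1, h5, Matrix.add_apply, Matrix.smul_apply]
  ring

theorem norm_ent_transvection {n : ℕ} {i j : Fin n} (hij : i ≠ j) (s : ℝ) :
    ‖ent (SpecialLinearGroup.transvection hij s) - ent (1 : SLn n)‖ ≤ |s| := by
  rw [pi_norm_le_iff_of_nonneg (abs_nonneg s)]
  intro a
  rw [pi_norm_le_iff_of_nonneg (abs_nonneg s)]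
  intro b
  have : (ent (SpecialLinearGroup.transvection hij s) - ent (1 : SLn n)) a b =
      Matrix.single i j s a b := by
    have h5 : (1 : SLn n).1 = (1 : Matrix (Fin n) (Fin n) ℝ) := rfl
    simp only [Pi.sub_apply, ent, h5, SpecialLinearGroup.transvection_coe, Matrix.add_apply]
    ring
  rw [this, Real.norm_eq_abs, Matrix.single_apply]
  split_ifs
  · exact le_rfl
  · simp

/-- In a cocompact group some conjugate of an elementary nilpotent matrix is small. -/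
theorem exists_small_conj {n : ℕ} (Γ : Subgroup (SLn n)) (K : Set (SLn n)) (hK : IsCompact K)
    (hKΓ : ∀ g : SLn n, ∃ γ ∈ Γ, g * γ ∈ K) {i j : Fin n} (hij : i ≠ j) (η : ℝ) (hη : 0 < η) :
    ∃ γ ∈ Γ, ‖(fun a b => (γ.1 * Matrix.single i j (1 : ℝ) * (γ⁻¹).1) a b :
      Fin n → Fin n → ℝ)‖ ≤ η := by
  -- bound on K
  have hbdd : ∃ B : ℝ, 0 < B ∧ ∀ k ∈ K, ‖(fun a b => ((k⁻¹).1 * Matrix.single i j (1 : ℝ) * k.1) a b :
      Fin n → Fin n → ℝ)‖ ≤ B := by
    have hc : Continuous (fun k : SLn n => (fun a b => ((k⁻¹).1 * Matrix.single i j (1 : ℝ) * k.1) a b :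
      Fin n → Fin n → ℝ)) := by
      have h1 : Continuous (fun k : SLn n => (k⁻¹).1) :=
        continuous_subtype_val.comp continuous_inv
      have h2 : Continuous (fun k : SLn n => k.1) := continuous_subtype_val
      have h3 : Continuous (fun k : SLn n => ((k⁻¹).1 * Matrix.single i j (1 : ℝ) * k.1)) :=
        (h1.mul continuous_const).mul h2
      exact h3
    obtain ⟨B, hB⟩ := (hK.image hc).isBounded.exists_norm_le
    exact ⟨max B 1, lt_of_lt_of_le one_pos (le_max_right _ _),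
      fun k hk => (hB _ (Set.mem_image_of_mem _ hk)).trans (le_max_left _ _)⟩
  obtain ⟨B, hB, hKB⟩ := hbdd
  -- the diagonal element
  obtain ⟨l, hl⟩ : ∃ l : ℝ, 0 < l ∧ l ^ 2 * B ≤ η ∧ l ≠ 0 := by
    refine ⟨Real.sqrt (η / B), Real.sqrt_pos.2 (by positivity), ?_, ?_⟩
    · rw [Real.sq_sqrt (by positivity)]
      exact le_of_eq (by field_simp)
    · exact (Real.sqrt_pos.2 (by positivity)).ne'
  obtain ⟨hl0, hlB, hlne⟩ := hl
  set d : SLn n := SpecialLinearGroup.diag2n hij l hlne with hd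
  obtain ⟨γ, hγ, hk⟩ := hKΓ d
  refine ⟨γ⁻¹, Γ.inv_mem hγ, ?_⟩
  have hdd : d.1 * Matrix.single i j (1 : ℝ) * (d⁻¹).1 = (l ^ 2) • Matrix.single i j (1 : ℝ) := by
    have h1 : d.1 * Matrix.single i j (1 : ℝ) = ((l ^ 2) • Matrix.single i j (1 : ℝ)) * d.1 := by
      rw [hd, SpecialLinearGroup.diag2n_coe]
      ext a b
      rw [Matrix.diagonal_mul, Matrix.mul_diagonal, Matrix.smul_apply, Matrix.single_apply]
      by_cases hab : i = a ∧ j = b
      · obtain ⟨rfl, rfl⟩ := hab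
        simp [hij.symm]
        field_simp
      · rw [if_neg hab]
        simp
    have h2 : d.1 * (d⁻¹).1 = 1 := congrArg Subtype.val (mul_inv_cancel d)
    rw [h1, mul_assoc, h2, mul_one]
  -- γ⁻¹ = k⁻¹ d
  have hγk : γ⁻¹ = (d * γ)⁻¹ * d := by
    group
  have hmat : (γ⁻¹).1 * Matrix.single i j (1 : ℝ) * ((γ⁻¹)⁻¹).1 =
      (l ^ 2) • ((((d * γ)⁻¹).1) * Matrix.single i j (1 : ℝ) * (d * γ).1) := by
    have h3 : (γ⁻¹).1 = ((d * γ)⁻¹).1 * d.1 := congrArg Subtype.val hγk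
    have h4 : ((γ⁻¹)⁻¹).1 = (d⁻¹).1 * (d * γ).1 := by
      have : (γ⁻¹)⁻¹ = d⁻¹ * (d * γ) := by group
      exact congrArg Subtype.val this
    rw [h3, h4]
    calc ((d * γ)⁻¹).1 * d.1 * Matrix.single i j (1 : ℝ) * ((d⁻¹).1 * (d * γ).1)
        = ((d * γ)⁻¹).1 * (d.1 * Matrix.single i j (1 : ℝ) * (d⁻¹).1) * (d * γ).1 := by
          simp only [mul_assoc]
      _ = _ := by
          rw [hdd, Matrix.mul_smul, Matrix.smul_mul]
  have hfun : (fun a b => ((γ⁻¹).1 * Matrix.single i j (1 : ℝ) * ((γ⁻¹)⁻¹).1) a b :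
      Fin n → Fin n → ℝ) = (l ^ 2) • (fun a b => ((((d * γ)⁻¹).1) * Matrix.single i j (1 : ℝ) *
        (d * γ).1) a b : Fin n → Fin n → ℝ) := by
    rw [hmat]
    rfl
  rw [hfun, norm_smul, Real.norm_eq_abs, abs_of_pos (by positivity)]
  calc l ^ 2 * ‖(fun a b => ((((d * γ)⁻¹).1) * Matrix.single i j (1 : ℝ) * (d * γ).1) a b :
        Fin n → Fin n → ℝ)‖ ≤ l ^ 2 * B := by
        gcongr
        exact hKB _ hk
    _ ≤ η := hlB

end Pool.Agent.Work.MP_20070e_gt
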