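import Pool.Agent.Work.MP_20070e_gt.C3

set_option autoImplicit false

open Matrix Topology Metric ContDiff

namespace Pool.Agent.Work.MP_20070e_gt

namespace LocAct

variable {n : ℕ} (A : LocAct n)

/-- `A` extends the `χ`-twisted action of `Γ`. -/
def Extends (Γ : Subgroup (SLn n)) (χ : Γ →* ℤˣ) : Prop :=
  ∀ (γ : Γ) (x : Eu n), ((γ : SLn n), x) ∈ A.D →
    A.θ ((γ : SLn n), x) = ‖x‖ ^ ((χ γ : ℤˣ) : ℤ) • (‖lin (γ : SLn n) x‖)⁻¹ • lin (γ : SLn n) x

theorem ne_zero_of_mem_sphere {x : Eu n} (hx : x ∈ sphere (0 : Eu n) 1) : x ≠ 0 := by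
  rintro rfl
  simp at hx

variable {A}

theorem Extends.norm {Γ : Subgroup (SLn n)} {χ : Γ →* ℤˣ} (h : A.Extends Γ χ) (γ : Γ) (x : Eu n)
    (hx : x ≠ 0) (hxD : ((γ : SLn n), x) ∈ A.D) :
    ‖A.θ ((γ : SLn n), x)‖ = ‖x‖ ^ ((χ γ : ℤˣ) : ℤ) := by
  rw [h γ x hxD, norm_smul, norm_smul, norm_inv, norm_norm,
    inv_mul_cancel₀ (norm_ne_zero_iff.2 (lin_ne_zero _ hx)), mul_one, norm_zpow, norm_norm]

theorem Extends.tau {Γ : Subgroup (SLn n)} {χ : Γ →* ℤˣ} (h : A.Extends Γ χ) (γ : Γ) (x : Eu n)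
    (hx : x ≠ 0) (hxD : ((γ : SLn n), x) ∈ A.D) :
    A.τ (γ : SLn n) x = (((χ γ : ℤˣ) : ℤ) : ℝ) * Real.log ‖x‖ := by
  rw [τ, h.norm γ x hx hxD, Real.log_zpow]

theorem Extends.mem_sphere {Γ : Subgroup (SLn n)} {χ : Γ →* ℤˣ} (h : A.Extends Γ χ) (γ : Γ)
    (x : Eu n) (hx : x ∈ sphere (0 : Eu n) 1) :
    A.θ ((γ : SLn n), x) ∈ sphere (0 : Eu n) 1 := by
  rw [mem_sphere_zero_iff_norm, h.norm γ x (ne_zero_of_mem_sphere hx) (A.sph _ x hx),
    mem_sphere_zero_iff_norm.1 hx, _root_.one_zpow]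

theorem abs_units (u : ℤˣ) : |((u : ℤ) : ℝ)| = 1 := by
  rcases Int.units_eq_one_or u with rfl | rfl <;> simp

/-- Claim A -/
theorem Extends.small {Γ : Subgroup (SLn n)} {χ : Γ →* ℤˣ} (h : A.Extends Γ χ)
    (K : Set (SLn n)) (hK : IsCompact K)
    (hKΓ : ∀ g : SLn n, ∃ γ ∈ Γ, g * γ ∈ K) {i j : Fin n} (hij : i ≠ j) {C δ : ℝ} (hC : 0 < C)
    (hδ : 0 < δ)
    (hest : ∀ h : SLn n, ‖ent h - ent (1 : SLn n)‖ < δ → ∀ y ∈ sphere (0 : Eu n) 1,
      |A.τ h y| ≤ C * ‖ent h - ent (1 : SLn n)‖) (ε : ℝ) (hε : 0 < ε) :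
    ∃ s₀ : ℝ, 0 < s₀ ∧ ∀ σ : ℝ, |σ| < s₀ → ∀ x ∈ sphere (0 : Eu n) 1,
      |A.τ (SpecialLinearGroup.transvection hij σ) x| ≤ ε * |σ| := by
  obtain ⟨γ, hγ, hsmall⟩ := exists_small_conj Γ K hK hKΓ hij (ε / C) (by positivity)
  -- tube lemma
  have hS : IsCompact (sphere (0 : Eu n) 1) := isCompact_sphere _ _
  have htube : ∀ᶠ g : SLn n in 𝓝 1, ∀ x ∈ sphere (0 : Eu n) 1, (γ, A.θ (g, x)) ∈ A.D := by
    apply hS.eventually_forall_of_forall_eventually
    intro x hx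
    have hD1 : ((1 : SLn n), x) ∈ A.D := A.sph 1 x hx
    have hDn : A.D ∈ 𝓝 ((1 : SLn n), x) := A.isOpen.mem_nhds hD1
    have hc : ContinuousAt A.θ ((1 : SLn n), x) := A.cont.continuousAt hDn
    have hc2 : ContinuousAt (fun p : SLn n × Eu n => (γ, A.θ p)) ((1 : SLn n), x) :=
      continuousAt_const.prodMk hc
    have hmem : (γ, A.θ ((1 : SLn n), x)) ∈ A.D := by
      rw [A.one x hD1]; exact A.sph γ x hx
    exact hc2.eventually (A.isOpen.mem_nhds hmem)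
  obtain ⟨ε₁, hε₁, hb₁⟩ := nhds_one_eq _ htube
  refine ⟨min ε₁ (δ * C / (ε + 1)), lt_min hε₁ (by positivity), ?_⟩
  intro σ hσ x hx
  have hσ1 : |σ| < ε₁ := hσ.trans_le (min_le_left _ _)
  have hσ2 : |σ| < δ * C / (ε + 1) := hσ.trans_le (min_le_right _ _)
  set u : SLn n := SpecialLinearGroup.transvection hij σ with hu
  have hγD : (γ, A.θ (u, x)) ∈ A.D :=
    hb₁ u (lt_of_le_of_lt (norm_ent_transvection hij σ) hσ1) x hx
  have huD : (u, x) ∈ A.D := A.sph u x hx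
  have h1 : A.θ (γ, A.θ (u, x)) = A.θ (γ * u, x) := A.mul γ u x huD hγD (A.sph _ x hx)
  set y := A.θ (γ, x) with hy
  have hyS : y ∈ sphere (0 : Eu n) 1 := h.mem_sphere ⟨γ, hγ⟩ x hx
  set w : SLn n := γ * u * γ⁻¹ with hw
  have hwγ : w * γ = γ * u := by rw [hw]; group
  have h2 : A.θ (w, y) = A.θ (γ * u, x) := by
    have := A.mul w γ x (A.sph γ x hx) (A.sph w y hyS) (A.sph _ x hx)
    rw [hwγ] at this
    exact this
  have hune : A.θ (u, x) ≠ 0 := A.ne_zero _ huD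
  have h3 : A.τ w y = (((χ ⟨γ, hγ⟩ : ℤˣ) : ℤ) : ℝ) * A.τ u x := by
    have h4 := h.tau ⟨γ, hγ⟩ (A.θ (u, x)) hune hγD
    have h5 : A.τ w y = A.τ γ (A.θ (u, x)) := by
      simp only [τ]
      rw [h2, h1]
    rw [h5]
    exact h4
  have hwn : ‖ent w - ent (1 : SLn n)‖ ≤ |σ| * (ε / C) := by
    rw [hw, hu, ent_conj_transvection hij γ σ, norm_smul, Real.norm_eq_abs]
    gcongr
  have hwδ : ‖ent w - ent (1 : SLn n)‖ < δ := by
    refine lt_of_le_of_lt hwn ?_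
    calc |σ| * (ε / C) ≤ (δ * C / (ε + 1)) * (ε / C) := by gcongr
      _ = δ * (ε / (ε + 1)) := by field_simp
      _ < δ * 1 := by
          gcongr
          rw [div_lt_one (by linarith)]
          linarith
      _ = δ := mul_one δ
  have h6 := hest w hwδ y hyS
  rw [h3, abs_mul, abs_units, one_mul] at h6
  calc |A.τ u x| ≤ C * ‖ent w - ent (1 : SLn n)‖ := h6
    _ ≤ C * (|σ| * (ε / C)) := by gcongr
    _ = ε * |σ| := by field_simp

/-- Claim B and C: transvections close to `1` preserve the sphere. -/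
theorem Extends.tau_eq_zero {Γ : Subgroup (SLn n)} {χ : Γ →* ℤˣ} (h : A.Extends Γ χ)
    (K : Set (SLn n)) (hK : IsCompact K)
    (hKΓ : ∀ g : SLn n, ∃ γ ∈ Γ, g * γ ∈ K) {i j : Fin n} (hij : i ≠ j) :
    ∃ s₁ : ℝ, 0 < s₁ ∧ ∀ σ : ℝ, |σ| ≤ s₁ → ∀ x ∈ sphere (0 : Eu n) 1,
      A.τ (SpecialLinearGroup.transvection hij σ) x = 0 := by
  obtain ⟨C, hC, δ, hδ, hest⟩ := A.uniform_est
  -- choose s₁
  obtain ⟨s₁, hs₁, hs₁δ, hs₁e⟩ : ∃ s₁ : ℝ, 0 < s₁ ∧ s₁ < δ ∧ Real.exp (C * s₁) * s₁ < δ := by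
    refine ⟨min (δ / 4) (1 / C), lt_min (by positivity) (by positivity), ?_, ?_⟩
    · exact lt_of_le_of_lt (min_le_left _ _) (by linarith)
    · have h1 : C * min (δ / 4) (1 / C) ≤ 1 := by
        calc C * min (δ / 4) (1 / C) ≤ C * (1 / C) := by gcongr; exact min_le_right _ _
          _ = 1 := by field_simp
      have h2 : Real.exp (C * min (δ / 4) (1 / C)) ≤ Real.exp 1 := Real.exp_le_exp.2 h1
      have h3 : Real.exp 1 < 3 := by
        have := Real.exp_one_lt_d9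
        linarith
      calc Real.exp (C * min (δ / 4) (1 / C)) * min (δ / 4) (1 / C) ≤ 3 * (δ / 4) := by
            gcongr
            · exact (h2.trans h3.le)
            · exact min_le_left _ _
        _ < δ := by linarith
  set T : ℝ → SLn n := fun s => SpecialLinearGroup.transvection hij s with hT
  -- doubling
  have hdouble : ∀ ε : ℝ, 0 < ε → ε ≤ 1 → ∀ s : ℝ, 0 < s → 2 * s ≤ s₁ →
      (∀ σ : ℝ, |σ| ≤ s → ∀ x ∈ sphere (0 : Eu n) 1,
        |A.τ (T σ) x| ≤ ε * Real.exp (C * s) * |σ|) →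
      (∀ σ : ℝ, |σ| ≤ 2 * s → ∀ x ∈ sphere (0 : Eu n) 1,
        |A.τ (T σ) x| ≤ ε * Real.exp (C * (2 * s)) * |σ|) := by
    intro ε hε hε1 s hs hss₁ hQ σ hσ x hx
    set ρ := σ / 2 with hρ
    have hρs : |ρ| ≤ s := by
      rw [hρ, abs_div, abs_two]; linarith
    have hσρ : T σ = T ρ * T ρ := by
      simp only [hT]
      rw [← SpecialLinearGroup.transvection_add]
      congr 1
      rw [hρ]; ring
    set l := A.τ (T ρ) x with hl
    have hl1 : |l| ≤ ε * Real.exp (C * s) * |ρ| := hQ ρ hρs x hx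
    have hes : Real.exp (C * s) ≤ Real.exp (C * s₁) := Real.exp_le_exp.2 (by
      apply mul_le_mul_of_nonneg_left _ hC.le; linarith)
    have hlδ : |l| < δ := by
      calc |l| ≤ ε * Real.exp (C * s) * |ρ| := hl1
        _ ≤ 1 * Real.exp (C * s₁) * s₁ := by
            gcongr
            linarith
        _ < δ := by rw [one_mul]; exact hs₁e
    have hTn : ‖ent (T ρ) - ent (1 : SLn n)‖ ≤ |ρ| := norm_ent_transvection hij ρ
    have hTδ : ‖ent (T ρ) - ent (1 : SLn n)‖ < δ := by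
      refine lt_of_le_of_lt hTn ?_
      linarith
    set z := A.θ (T ρ, x) with hz
    have hzne : z ≠ 0 := A.ne_zero _ (A.sph _ x hx)
    have hzn : 0 < ‖z‖ := norm_pos_iff.2 hzne
    set y : Eu n := (‖z‖)⁻¹ • z with hy
    have hyS : y ∈ sphere (0 : Eu n) 1 := by
      rw [mem_sphere_zero_iff_norm, hy, norm_smul, norm_inv, norm_norm,
        inv_mul_cancel₀ hzn.ne']
    have hexpl : Real.exp l = ‖z‖ := by
      rw [hl, τ, Real.exp_log hzn]
    have hzy : z = Real.exp l • y := by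
      rw [hexpl, hy, smul_smul, mul_inv_cancel₀ hzn.ne', one_smul]
    obtain ⟨hy1, hy2⟩ := hest (T ρ) hTδ y hyS
    obtain ⟨hD, hm⟩ := hy2 l hlδ
    rw [← hzy] at hD hm
    have hmul : A.θ (T ρ, z) = A.θ (T σ, x) := by
      rw [hσρ]
      exact A.mul (T ρ) (T ρ) x (A.sph _ x hx) hD (A.sph _ x hx)
    have hτ : A.τ (T σ) x = A.τ (T ρ) z := by
      simp only [τ]; rw [hmul]
    rw [hτ]
    have hQy := hQ ρ hρs y hyS
    have htri : |A.τ (T ρ) z| ≤ |A.τ (T ρ) z - A.τ (T ρ) y - l| + |A.τ (T ρ) y| + |l| := by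
      have : A.τ (T ρ) z = (A.τ (T ρ) z - A.τ (T ρ) y - l) + A.τ (T ρ) y + l := by ring
      calc |A.τ (T ρ) z| = |(A.τ (T ρ) z - A.τ (T ρ) y - l) + A.τ (T ρ) y + l| := by rw [← this]
        _ ≤ _ := abs_add_three _ _ _
    have hσabs : |σ| = 2 * |ρ| := by rw [hρ, abs_div, abs_two]; ring
    set E := Real.exp (C * s) with hE
    have hEpos : 0 < E := Real.exp_pos _
    have h7 : C * ‖ent (T ρ) - ent (1 : SLn n)‖ * |l| ≤ C * s * (ε * E * |ρ|) := by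
      gcongr
      exact hTn.trans hρs
    have h8 : 2 + C * s ≤ 2 * Real.exp (C * s) := by
      have := Real.add_one_le_exp (C * s)
      have h9 : 0 ≤ C * s := by positivity
      linarith
    have h9 : Real.exp (C * (2 * s)) = E * E := by
      rw [hE, ← Real.exp_add]; ring_nf
    calc |A.τ (T ρ) z| ≤ C * s * (ε * E * |ρ|) + ε * E * |ρ| + ε * E * |ρ| := by
          linarith
      _ = (2 + C * s) * (ε * E * |ρ|) := by ring
      _ ≤ (2 * E) * (ε * E * |ρ|) := by gcongr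
      _ = ε * Real.exp (C * (2 * s)) * |σ| := by
          rw [h9, hσabs]; ring
  refine ⟨s₁, hs₁, ?_⟩
  -- for all ε the bound holds at s₁
  have hall : ∀ ε : ℝ, 0 < ε → ε ≤ 1 → ∀ σ : ℝ, |σ| ≤ s₁ → ∀ x ∈ sphere (0 : Eu n) 1,
      |A.τ (T σ) x| ≤ ε * Real.exp (C * s₁) * |σ| := by
    intro ε hε hε1
    obtain ⟨s₀, hs₀, hsm⟩ := h.small K hK hKΓ hij hC hδ (fun g hg y hy => (hest g hg y hy).1) ε hε
    obtain ⟨k, hk⟩ : ∃ k : ℕ, s₁ / 2 ^ k < s₀ := by
      obtain ⟨k, hk⟩ := exists_pow_lt_of_lt_one (div_pos hs₀ hs₁) (by norm_num : (1 / 2 : ℝ) < 1)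
      refine ⟨k, ?_⟩
      rw [lt_div_iff₀ hs₁] at hk
      calc s₁ / 2 ^ k = (1 / 2) ^ k * s₁ := by rw [one_div, inv_pow]; field_simp
        _ < s₀ := hk
    have hind : ∀ m : ℕ, m ≤ k → ∀ σ : ℝ, |σ| ≤ s₁ / 2 ^ (k - m) → ∀ x ∈ sphere (0 : Eu n) 1,
        |A.τ (T σ) x| ≤ ε * Real.exp (C * (s₁ / 2 ^ (k - m))) * |σ| := by
      intro m
      induction m with
      | zero =>
        intro _ σ hσ x hx
        rw [Nat.sub_zero] at hσ ⊢
        refine (hsm σ (lt_of_le_of_lt hσ hk) x hx).trans ?_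
        have : 1 ≤ Real.exp (C * (s₁ / 2 ^ k)) := Real.one_le_exp (by positivity)
        calc ε * |σ| = ε * 1 * |σ| := by ring
          _ ≤ _ := by gcongr
      | succ m ih =>
        intro hm
        have hkm : k - m = (k - (m + 1)) + 1 := by omega
        have hIH := ih (by omega)
        rw [hkm] at hIH
        have h2 : s₁ / 2 ^ (k - (m + 1)) = 2 * (s₁ / 2 ^ (k - (m + 1) + 1)) := by
          rw [pow_succ]; field_simp
        rw [h2]
        apply hdouble ε hε hε1 _ (by positivity) _ hIH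
        rw [← h2]
        apply div_le_self hs₁.le
        exact one_le_pow₀ (by norm_num)
    have := hind k le_rfl
    simpa using this
  intro σ hσ x hx
  have hle : ∀ ε : ℝ, 0 < ε → |A.τ (T σ) x| ≤ ε := by
    intro ε hε
    set M := Real.exp (C * s₁) * s₁ with hM
    have hMpos : 0 < M := by positivity
    have h1 := hall (min 1 (ε / M)) (lt_min one_pos (by positivity)) (min_le_left _ _) σ hσ x hx
    calc |A.τ (T σ) x| ≤ min 1 (ε / M) * Real.exp (C * s₁) * |σ| := h1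
      _ ≤ (ε / M) * Real.exp (C * s₁) * s₁ := by
          gcongr
          exact min_le_right _ _
      _ = ε := by rw [mul_assoc, ← hM]; field_simp
  have h0 : |A.τ (T σ) x| ≤ 0 := le_of_forall_pos_le_add (fun ε hε => by
    rw [zero_add]; exact hle ε hε)
  exact abs_nonpos_iff.1 h0

end LocAct

end Pool.Agent.Work.MP_20070e_gt
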