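import Pool.Agent.Work.MP_20070e_gt.SpecL

set_option autoImplicit false

open Matrix Topology

namespace Pool.Agent.Work.MP_20070e_gt

lemma word_identity {A : Type*} [Ring A] [Algebra ℝ A] (E F P Q : A) (a : ℝ) (ha : a ≠ 0)
    (hEF : E * F = P) (hFE : F * E = Q) (hEE : E * E = 0) (hFF : F * F = 0)
    (hPE : P * E = E) (hEQ : E * Q = E) (hFP : F * P = F) (hQF : Q * F = F) :
    (1 + a • E) * (1 + (-a⁻¹) • F) * (1 + a • E) * (1 + (-1 : ℝ) • E) * (1 + (1 : ℝ) • F) *
      (1 + (-1 : ℝ) • E) = 1 + (a - 1) • P + (a⁻¹ - 1) • Q := by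
  have hPP : P * P = P := by
    calc P * P = P * (E * F) := by rw [hEF]
      _ = (P * E) * F := (mul_assoc _ _ _).symm
      _ = P := by rw [hPE, hEF]
  have hQQ : Q * Q = Q := by
    calc Q * Q = Q * (F * E) := by rw [hFE]
      _ = (Q * F) * E := (mul_assoc _ _ _).symm
      _ = Q := by rw [hQF, hFE]
  have hPQ : P * Q = 0 := by rw [← hEF, mul_assoc, ← hFE, ← mul_assoc F F E, hFF, zero_mul, mul_zero]
  have hQP : Q * P = 0 := by rw [← hFE, mul_assoc, ← hEF, ← mul_assoc E E F, hEE, zero_mul, mul_zero]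
  have hQE : Q * E = 0 := by rw [← hFE, mul_assoc, hEE, mul_zero]
  have hEP : E * P = 0 := by rw [← hEF, ← mul_assoc, hEE, zero_mul]
  have hPF : P * F = 0 := by rw [← hEF, mul_assoc, hFF, mul_zero]
  have hFQ : F * Q = 0 := by rw [← hFE, ← mul_assoc, hFF, zero_mul]
  have h1 : (1 + a • E) * (1 + (-a⁻¹) • F) * (1 + a • E) = 1 + a • E - a⁻¹ • F - P - Q := by
    simp only [mul_add, add_mul, one_mul, mul_one, smul_mul_assoc, mul_smul_comm, smul_smul, hEF, hFE,
      hEE, hPE, smul_zero, add_zero]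
    match_scalars <;> field_simp <;> ring
  have h2 : (1 + (-1 : ℝ) • E) * (1 + (1 : ℝ) • F) * (1 + (-1 : ℝ) • E) = 1 - E + F - P - Q := by
    simp only [mul_add, add_mul, one_mul, mul_one, smul_mul_assoc, mul_smul_comm, smul_smul, hEF, hFE,
      hEE, hPE, smul_zero, add_zero]
    match_scalars <;> ring
  have h3 : (1 + a • E) * (1 + (-a⁻¹) • F) * (1 + a • E) * (1 + (-1 : ℝ) • E) * (1 + (1 : ℝ) • F) *
      (1 + (-1 : ℝ) • E) = ((1 + a • E) * (1 + (-a⁻¹) • F) * (1 + a • E)) *
      ((1 + (-1 : ℝ) • E) * (1 + (1 : ℝ) • F) * (1 + (-1 : ℝ) • E)) := by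
    simp only [mul_assoc]
  rw [h3, h1, h2]
  simp only [mul_add, add_mul, mul_sub, sub_mul, one_mul, mul_one, smul_mul_assoc, mul_smul_comm,
    hEF, hFE, hEE, hFF, hPE, hEQ, hFP, hQF, hPP, hQQ, hPQ, hQP, hQE, hEP, hPF, hFQ, smul_zero]
  match_scalars <;> ring

lemma diag2n_decompose {ι : Type*} [Fintype ι] [DecidableEq ι] {i j : ι} (hij : i ≠ j) (a : ℝ)
    (ha : a ≠ 0) : SpecialLinearGroup.diag2n hij a ha =
      SpecialLinearGroup.transvection hij a *
      SpecialLinearGroup.transvection hij.symm (- a⁻¹) *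
      SpecialLinearGroup.transvection hij a *
      SpecialLinearGroup.transvection hij (-1) *
      SpecialLinearGroup.transvection hij.symm 1 *
      SpecialLinearGroup.transvection hij (-1) := by
  apply Subtype.ext
  show diagonal _ = (1 + single i j a) * (1 + single j i (-a⁻¹)) * (1 + single i j a) *
    (1 + single i j (-1)) * (1 + single j i 1) * (1 + single i j (-1))
  have hs : ∀ (k l : ι) (x : ℝ), single k l x = x • single k l (1:ℝ) := by
    intro k l x
    rw [smul_single, smul_eq_mul, mul_one]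
  have key := word_identity (single i j (1:ℝ)) (single j i (1:ℝ)) (single i i (1:ℝ))
    (single j j (1:ℝ)) a ha (by simp) (by simp)
    (single_mul_single_of_ne _ _ _ _ hij.symm _) (single_mul_single_of_ne _ _ _ _ hij _)
    (by simp) (by simp) (by simp) (by simp)
  rw [hs i j a, hs j i (-a⁻¹), hs i j (-1), hs j i 1, one_smul] 
  rw [one_smul] at key
  rw [key]
  ext k l
  simp only [diagonal_apply, Matrix.add_apply, Matrix.smul_apply, one_apply, single_apply,
    smul_eq_mul]
  by_cases hkl : k = l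
  · subst hkl
    by_cases hki : k = i
    · subst hki
      simp [hij.symm]
    · by_cases hkj : k = j
      · subst hkj
        simp [hki, Ne.symm hki]
      · simp [hki, hkj, Ne.symm hki, Ne.symm hkj]
  · have h1 : ¬ (i = k ∧ i = l) := fun h => hkl (h.1.symm.trans h.2)
    have h2 : ¬ (j = k ∧ j = l) := fun h => hkl (h.1.symm.trans h.2)
    simp [hkl, h1, h2]

/-- MODULE T (a): a multiplicative property of elements of `SL_n(ℝ)` which holds for all
transvections holds for all elements -/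
theorem sl_induction {n : ℕ} (hn : 2 ≤ n) (P : SLn n → Prop)
    (ht : ∀ (i j : Fin n) (hij : i ≠ j) (s : ℝ), P (SpecialLinearGroup.transvection hij s))
    (hmul : ∀ a b, P a → P b → P (a * b)) (g : SLn n) : P g := by
  have : Nontrivial (Fin n) := Fin.nontrivial_iff_two_le.2 hn
  refine SpecialLinearGroup.diagonal_transvection_induction' P g ?_ ht hmul
  intro i j hij c hc
  rw [diag2n_decompose hij c hc]
  exact hmul _ _ (hmul _ _ (hmul _ _ (hmul _ _ (hmul _ _ (ht _ _ _ _) (ht _ _ _ _)) (ht _ _ _ _))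
    (ht _ _ _ _)) (ht _ _ _ _)) (ht _ _ _ _)

/-- MODULE T (b): paths -/
theorem sl_path {n : ℕ} (hn : 2 ≤ n) (g : SLn n) :
    ∃ p : ℝ → SLn n, Continuous p ∧ p 0 = 1 ∧ p 1 = g := by
  refine sl_induction hn (fun g => ∃ p : ℝ → SLn n, Continuous p ∧ p 0 = 1 ∧ p 1 = g) ?_ ?_ g
  · intro i j hij s
    refine ⟨fun t => SpecialLinearGroup.transvection hij (t * s), ?_, ?_, ?_⟩
    · refine continuous_induced_rng.2 ?_
      show Continuous (fun t : ℝ => (1 : Matrix (Fin n) (Fin n) ℝ) + single i j (t * s))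
      refine continuous_const.add ?_
      refine continuous_matrix (fun k l => ?_)
      simp only [single_apply]
      split_ifs <;> fun_prop
    · show SpecialLinearGroup.transvection hij (0 * s) = 1
      rw [zero_mul, SpecialLinearGroup.transvection_coeff_zero]
    · show SpecialLinearGroup.transvection hij (1 * s) = _
      rw [one_mul]
  · rintro a b ⟨p, hp, hp0, hp1⟩ ⟨q, hq, hq0, hq1⟩
    refine ⟨fun t => p t * q t, hp.mul hq, ?_, ?_⟩
    · show p 0 * q 0 = 1
      rw [hp0, hq0, one_mul]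
    · show p 1 * q 1 = a * b
      rw [hp1, hq1]

/-- the linear algebra of `lin` -/
theorem lin_ne_zero' {n : ℕ} (g : SLn n) {v : Eu n} (hv : v ≠ 0) : lin g v ≠ 0 :=
  lin_ne_zero g hv

end Pool.Agent.Work.MP_20070e_gt
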