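import Pool.Agent.Work.MP_20070e_gt.C4
import Pool.Agent.Work.MP_20070e_gt.T

set_option autoImplicit false

open Matrix Topology Metric ContDiff

namespace Pool.Agent.Work.MP_20070e_gt

namespace LocAct

variable {n : ℕ} {A : LocAct n}

/-- The whole group preserves the sphere. -/
theorem Extends.preserves {Γ : Subgroup (SLn n)} {χ : Γ →* ℤˣ} (h : A.Extends Γ χ) (hn : 2 ≤ n)
    (K : Set (SLn n)) (hK : IsCompact K)
    (hKΓ : ∀ g : SLn n, ∃ γ ∈ Γ, g * γ ∈ K) (g : SLn n) :
    ∀ x ∈ sphere (0 : Eu n) 1, A.θ (g, x) ∈ sphere (0 : Eu n) 1 := by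
  refine sl_induction hn (fun g => ∀ x ∈ sphere (0 : Eu n) 1, A.θ (g, x) ∈ sphere (0 : Eu n) 1)
    ?_ ?_ g
  · intro i j hij s
    obtain ⟨s₁, hs₁, hz⟩ := h.tau_eq_zero K hK hKΓ hij
    have hsmall : ∀ σ : ℝ, |σ| ≤ s₁ → ∀ x ∈ sphere (0 : Eu n) 1,
        A.θ (SpecialLinearGroup.transvection hij σ, x) ∈ sphere (0 : Eu n) 1 := by
      intro σ hσ x hx
      have h1 := hz σ hσ x hx
      have h2 : 0 < ‖A.θ (SpecialLinearGroup.transvection hij σ, x)‖ :=
        norm_pos_iff.2 (A.ne_zero _ (A.sph _ x hx))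
      rw [mem_sphere_zero_iff_norm]
      have h3 := Real.exp_log h2
      rw [τ] at h1
      rw [h1, Real.exp_zero] at h3
      exact h3.symm
    obtain ⟨N, hN⟩ := exists_nat_gt (|s| / s₁)
    have hNpos : 0 < (N : ℝ) := lt_of_le_of_lt (by positivity) hN
    have hsN : |s / N| ≤ s₁ := by
      rw [abs_div, abs_of_pos hNpos, div_le_iff₀ hNpos]
      rw [div_lt_iff₀ hs₁] at hN
      linarith
    have hmult : ∀ k : ℕ, ∀ x ∈ sphere (0 : Eu n) 1,
        A.θ (SpecialLinearGroup.transvection hij (k * (s / N)), x) ∈ sphere (0 : Eu n) 1 := by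
      intro k
      induction k with
      | zero =>
        intro x hx
        apply hsmall _ _ x hx
        simp [hs₁.le]
      | succ k ih =>
        intro x hx
        have heq : SpecialLinearGroup.transvection hij (((k + 1 : ℕ) : ℝ) * (s / N)) =
            SpecialLinearGroup.transvection hij (s / N) *
              SpecialLinearGroup.transvection hij (k * (s / N)) := by
          rw [← SpecialLinearGroup.transvection_add]
          congr 1
          push_cast
          ring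
        rw [heq, ← A.mul _ _ x (A.sph _ x hx) (A.sph _ _ (ih x hx)) (A.sph _ x hx)]
        exact hsmall _ hsN _ (ih x hx)
    have hfin := hmult N
    have hNs : (N : ℝ) * (s / N) = s := by field_simp
    rw [hNs] at hfin
    exact hfin
  · intro a b ha hb x hx
    rw [← A.mul a b x (A.sph _ x hx) (A.sph _ _ (hb x hx)) (A.sph _ x hx)]
    exact ha _ (hb x hx)

/-- The core statement: the twisted action does not extend. -/
theorem Extends.false {Γ : Subgroup (SLn n)} {χ : Γ →* ℤˣ} (h : A.Extends Γ χ) (hn : 2 ≤ n)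
    (K : Set (SLn n)) (hK : IsCompact K)
    (hKΓ : ∀ g : SLn n, ∃ γ ∈ Γ, g * γ ∈ K) (γ₀ : Γ) (hγ₀ : χ γ₀ = -1) : False := by
  obtain ⟨p, hp, hp0, hp1⟩ := sl_path hn (γ₀ : SLn n)
  -- a point of the sphere
  obtain ⟨x, hx⟩ : ∃ x : Eu n, x ∈ sphere (0 : Eu n) 1 := by
    refine ⟨EuclideanSpace.single (⟨0, by omega⟩ : Fin n) (1 : ℝ), ?_⟩
    rw [mem_sphere_zero_iff_norm]
    simp
  have hxn : ‖x‖ = 1 := mem_sphere_zero_iff_norm.1 hx
  -- choose t
  have htube : ∀ᶠ t : ℝ in 𝓝 0, ∀ s ∈ Set.Icc (0 : ℝ) 1, (p s, Real.exp t • x) ∈ A.D := by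
    apply isCompact_Icc.eventually_forall_of_forall_eventually
    intro s _
    have hc : ContinuousAt (fun q : ℝ × ℝ => (p q.2, Real.exp q.1 • x)) ((0 : ℝ), s) := by
      apply ContinuousAt.prodMk
      · exact hp.continuousAt.comp continuousAt_snd
      · exact (Real.continuous_exp.continuousAt.comp continuousAt_fst).smul continuousAt_const
    have hmem : (fun q : ℝ × ℝ => (p q.2, Real.exp q.1 • x)) ((0 : ℝ), s) ∈ A.D := by
      simp only [Real.exp_zero, one_smul]
      exact A.sph _ x hx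
    exact hc.eventually (A.isOpen.mem_nhds hmem)
  obtain ⟨t, ht, htpos⟩ : ∃ t : ℝ, (∀ s ∈ Set.Icc (0 : ℝ) 1, (p s, Real.exp t • x) ∈ A.D) ∧
      0 < t := by
    obtain ⟨ε, hε, hb⟩ := Metric.eventually_nhds_iff.1 htube
    refine ⟨ε / 2, hb ?_, by positivity⟩
    rw [dist_eq_norm, sub_zero, Real.norm_eq_abs, abs_of_pos (by positivity)]
    linarith
  set z := Real.exp t • x with hz
  have hzn : ‖z‖ = Real.exp t := by
    rw [hz, norm_smul, hxn, mul_one, Real.norm_eq_abs, abs_of_pos (Real.exp_pos t)]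
  have hlogz : Real.log ‖z‖ = t := by rw [hzn, Real.log_exp]
  have hzne : z ≠ 0 := by
    intro h0
    rw [h0, norm_zero] at hzn
    exact (Real.exp_pos t).ne hzn
  have h1D : ((1 : SLn n), z) ∈ A.D := by
    have := ht 0 (by simp)
    rwa [hp0] at this
  -- continuity of the radial coordinate along the path
  have hcont : ContinuousOn (fun s : ℝ => A.τ (p s) z) (Set.Icc 0 1) := by
    have hc1 : ContinuousOn (fun s : ℝ => A.θ (p s, z)) (Set.Icc 0 1) :=
      A.cont.comp (by fun_prop) (fun s hs => ht s hs)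
    apply ContinuousOn.log hc1.norm
    intro s hs
    exact norm_ne_zero_iff.2 (A.ne_zero _ (ht s hs))
  have h0 : A.τ (p 0) z = t := by
    rw [hp0, τ, A.one z h1D, hlogz]
  have h1 : A.τ (p 1) z = -t := by
    rw [hp1, h.tau γ₀ z hzne (by have := ht 1 (by simp); rwa [hp1] at this), hγ₀, hlogz]
    simp
  -- intermediate value
  obtain ⟨s, hs, hs0⟩ : ∃ s ∈ Set.Icc (0 : ℝ) 1, A.τ (p s) z = 0 := by
    have := intermediate_value_Icc' (zero_le_one) hcont
    have h2 : (0 : ℝ) ∈ Set.Icc (A.τ (p 1) z) (A.τ (p 0) z) := by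
      rw [h0, h1]
      constructor <;> linarith
    obtain ⟨s, hs, hs'⟩ := this h2
    exact ⟨s, hs, hs'⟩
  have hsD := ht s hs
  have hyn : A.θ (p s, z) ∈ sphere (0 : Eu n) 1 := by
    rw [mem_sphere_zero_iff_norm]
    have h3 := Real.exp_log (norm_pos_iff.2 (A.ne_zero _ hsD))
    rw [τ] at hs0
    rw [hs0, Real.exp_zero] at h3
    exact h3.symm
  have hback : A.θ ((p s)⁻¹, A.θ (p s, z)) = z := by
    rw [A.mul (p s)⁻¹ (p s) z hsD (A.sph _ _ hyn) (by rw [inv_mul_cancel]; exact h1D),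
      inv_mul_cancel, A.one z h1D]
  have hpres := h.preserves hn K hK hKΓ (p s)⁻¹ _ hyn
  rw [hback, mem_sphere_zero_iff_norm, hzn] at hpres
  have : Real.exp t > 1 := by
    rw [gt_iff_lt, Real.one_lt_exp_iff]
    exact htpos
  linarith

end LocAct

end Pool.Agent.Work.MP_20070e_gt
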