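import Mathlib

set_option autoImplicit false

/-!
# MP_20070e_gt : definitions

`G = SL_n(ℝ)`, lattices, smooth actions, the standard action on the sphere, local `G`-actions.
-/

open Matrix Manifold Topology ContDiff MeasureTheory Metric

namespace Pool.Agent.Work.MP_20070e_gt

/-- The Lie group `G = SL_n(ℝ)` (with the topology induced from the space of matrices). -/
abbrev SLn (n : ℕ) := SpecialLinearGroup (Fin n) ℝ

/-- Euclidean space `ℝⁿ`. -/
abbrev Eu (n : ℕ) := EuclideanSpace ℝ (Fin n)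

/-- The unit sphere `S^{n-1}` of `ℝⁿ`. -/
abbrev Sph (n : ℕ) := sphere (0 : Eu n) 1

/-- The entries of `g ∈ SL_n(ℝ)`, as a point of the normed space `ℝ^{n × n}`. -/
def ent {n : ℕ} (g : SLn n) : Fin n → Fin n → ℝ := fun i j => g.1 i j

/-- A subgroup is discrete if some neighbourhood of `1` meets it only in `1`. -/
def IsDiscreteSubgroup {n : ℕ} (Γ : Subgroup (SLn n)) : Prop :=
  ∃ U ∈ 𝓝 (1 : SLn n), ∀ γ ∈ Γ, γ ∈ U → γ = 1

/-- A lattice of `SL_n(ℝ)`: a discrete subgroup `Γ` such that, for every Haar measure, there is a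
Borel set `F` of finite measure with `F Γ = G`. -/
def IsLattice {n : ℕ} (Γ : Subgroup (SLn n)) : Prop :=
  IsDiscreteSubgroup Γ ∧
  ∀ (_ : MeasurableSpace (SLn n)) (_ : BorelSpace (SLn n)) (μ : Measure (SLn n)),
    μ.IsHaarMeasure →
      ∃ F : Set (SLn n), MeasurableSet F ∧ μ F < ⊤ ∧ ∀ g : SLn n, ∃ γ ∈ Γ, g * γ ∈ F

/-- A cocompact lattice: a discrete subgroup `Γ` with `K Γ = G` for some compact `K`. -/
def IsUniformLattice {n : ℕ} (Γ : Subgroup (SLn n)) : Prop :=
  IsDiscreteSubgroup Γ ∧ ∃ K : Set (SLn n), IsCompact K ∧ ∀ g : SLn n, ∃ γ ∈ Γ, g * γ ∈ K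

theorem IsUniformLattice.isLattice {n : ℕ} {Γ : Subgroup (SLn n)} (h : IsUniformLattice Γ) :
    IsLattice Γ := by
  obtain ⟨h1, K, hK, hKΓ⟩ := h
  refine ⟨h1, fun _ _ μ hμ => ⟨K, hK.isClosed.measurableSet, hK.measure_lt_top, hKΓ⟩⟩

/-- The linear action of `SL_n(ℝ)` on `ℝⁿ`. -/
noncomputable def lin {n : ℕ} (g : SLn n) (v : Eu n) : Eu n := WithLp.toLp 2 (g.1 *ᵥ v.ofLp)

theorem lin_eq {n : ℕ} (g : SLn n) (v : Eu n) : lin g v = Matrix.toEuclideanLin g.1 v := rfl

theorem lin_one {n : ℕ} (v : Eu n) : lin (1 : SLn n) v = v := by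
  simp [lin]

theorem lin_mul {n : ℕ} (g h : SLn n) (v : Eu n) : lin (g * h) v = lin g (lin h v) := by
  simp [lin, Matrix.mulVec_mulVec]

theorem lin_ne_zero {n : ℕ} (g : SLn n) {v : Eu n} (hv : v ≠ 0) : lin g v ≠ 0 := by
  intro h
  apply hv
  have h2 : lin g⁻¹ (lin g v) = v := by rw [← lin_mul, inv_mul_cancel, lin_one]
  rw [← h2, h]
  simp [lin]

/-- The standard action of `SL_n(ℝ)` on the unit sphere, `g • v = g v / |g v|`. -/
noncomputable def sphAct {n : ℕ} (g : SLn n) (x : Sph n) : Sph n :=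
  ⟨(‖lin g x.1‖)⁻¹ • lin g x.1, by
    have hx : (x : Eu n) ≠ 0 := by
      intro h
      have := x.2
      rw [mem_sphere_zero_iff_norm, h] at this
      simp at this
    rw [mem_sphere_zero_iff_norm, norm_smul, norm_inv, norm_norm,
      inv_mul_cancel₀ (norm_ne_zero_iff.mpr (lin_ne_zero g hx))]⟩

section Manifolds

/-- `C^∞` maps between manifolds modelled on the normed spaces `E` and `E'`. -/
def SmoothMap (E E' : Type) [NormedAddCommGroup E] [NormedSpace ℝ E] [NormedAddCommGroup E']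
    [NormedSpace ℝ E'] {M N : Type} [TopologicalSpace M] [ChartedSpace E M] [TopologicalSpace N]
    [ChartedSpace E' N] (f : M → N) : Prop :=
  ContMDiff 𝓘(ℝ, E) 𝓘(ℝ, E') ∞ f

/-- The derivative of `f` is injective at every point. -/
def InjDeriv (E E' : Type) [NormedAddCommGroup E] [NormedSpace ℝ E] [NormedAddCommGroup E']
    [NormedSpace ℝ E'] {M N : Type} [TopologicalSpace M] [ChartedSpace E M] [TopologicalSpace N]
    [ChartedSpace E' N] (f : M → N) : Prop :=
  ∀ x, Function.Injective (mfderiv 𝓘(ℝ, E) 𝓘(ℝ, E') f x)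

/-- `Θ : F × M → M` is `C^∞` on the set `N` (`F` a normed space, `M` a manifold modelled on `E`). -/
def SmoothPairOn (F E : Type) [NormedAddCommGroup F] [NormedSpace ℝ F] [NormedAddCommGroup E]
    [NormedSpace ℝ E] {M : Type} [TopologicalSpace M] [ChartedSpace E M] (Θ : F × M → M)
    (N : Set (F × M)) : Prop :=
  ContMDiffOn (𝓘(ℝ, F).prod 𝓘(ℝ, E)) 𝓘(ℝ, E) ∞ Θ N

variable {n : ℕ} {M : Type} [TopologicalSpace M] [ChartedSpace (Eu n) M]

/-- A smooth (`C^∞`) action of `Γ` on the manifold `M` (every `γ` acts by a smooth self-map, hence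
by a diffeomorphism whose inverse is given by `γ⁻¹`). -/
structure SmoothAction (Γ : Subgroup (SLn n)) (M : Type) [TopologicalSpace M]
    [ChartedSpace (Eu n) M] where
  /-- the action map -/
  toFun : Γ → M → M
  map_one : toFun 1 = id
  map_mul : ∀ γ δ : Γ, toFun (γ * δ) = toFun γ ∘ toFun δ
  smooth : ∀ γ : Γ, SmoothMap (Eu n) (Eu n) (toFun γ)

/-- Smoothness of a map defined on (an open subset) `W ⊆ G × M`, `G = SL_n(ℝ)` being viewed as an
embedded submanifold of the space `ℝ^{n × n}` of matrices: locally the map is the restriction of a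
`C^∞` map defined on an open subset of `ℝ^{n × n} × M`. -/
def SmoothOnSL (W : Set (SLn n × M)) (θ : SLn n × M → M) : Prop :=
  ∀ p ∈ W, ∃ N ∈ 𝓝 (ent p.1, p.2), ∃ Θ : (Fin n → Fin n → ℝ) × M → M,
    SmoothPairOn (Fin n → Fin n → ℝ) (Eu n) Θ N ∧
      ∀ q ∈ W, (ent q.1, q.2) ∈ N → Θ (ent q.1, q.2) = θ q

/-- `α` extends to a local `G`-action on some neighbourhood of `S`:
there are an open neighbourhood `U` of `S`, an open `W ⊆ G × U` containing `G × S` and a smooth map
`θ : W → M` such that `θ (e, x) = x`, `θ (g, θ (h, x)) = θ (g h, x)` whenever both sides are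
defined, and `θ (γ, x) = α γ x` for all `(γ, x) ∈ W` with `γ ∈ Γ`. -/
def HasLocalExtension {Γ : Subgroup (SLn n)} (α : SmoothAction Γ M) (S : Set M) : Prop :=
  ∃ (U : Set M) (W : Set (SLn n × M)) (θ : SLn n × M → M),
    IsOpen U ∧ S ⊆ U ∧ IsOpen W ∧ (∀ p ∈ W, p.2 ∈ U) ∧
    (∀ (g : SLn n), ∀ x ∈ S, (g, x) ∈ W) ∧
    SmoothOnSL W θ ∧
    (∀ x, (1, x) ∈ W → θ (1, x) = x) ∧
    (∀ g h x, (h, x) ∈ W → (g, θ (h, x)) ∈ W → (g * h, x) ∈ W → θ (g, θ (h, x)) = θ (g * h, x)) ∧
    (∀ (γ : Γ) (x : M), ((γ : SLn n), x) ∈ W → θ ((γ : SLn n), x) = α.toFun γ x)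

end Manifolds

/-- `φ : S^m → M` is a smooth embedding (a diffeomorphism onto an embedded submanifold): a smooth
topological embedding with everywhere injective derivative. -/
def IsSmoothEmbedding {m : ℕ} {M : Type} [TopologicalSpace M] [ChartedSpace (Eu (m + 1)) M]
    (φ : Sph (m + 1) → M) : Prop :=
  SmoothMap (Eu m) (Eu (m + 1)) φ ∧ IsEmbedding φ ∧ InjDeriv (Eu m) (Eu (m + 1)) φ

/-- `M` is a smooth (`C^∞`) Hausdorff second countable manifold of dimension `n`. -/
def IsSmoothManifold (n : ℕ) (M : Type) [TopologicalSpace M] [ChartedSpace (Eu n) M] : Prop :=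
  T2Space M ∧ SecondCountableTopology M ∧ IsManifold (𝓡 n) ∞ M

/-- The action `α` of `Γ` on `M` leaves invariant the embedded sphere `φ(S^m)`, on which it is the
standard action. -/
def IsStandardOn {m : ℕ} {M : Type} [TopologicalSpace M] [ChartedSpace (Eu (m + 1)) M]
    {Γ : Subgroup (SLn (m + 1))} (α : SmoothAction Γ M) (φ : Sph (m + 1) → M) : Prop :=
  ∀ (γ : Γ) (x : Sph (m + 1)), φ (sphAct (γ : SLn (m + 1)) x) = α.toFun γ (φ x)

/-- `Γ ≤ SL_{m+1}(ℝ)` has a smooth action on some `(m+1)`-manifold `M` and an invariant embedded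
copy of the sphere `S^m` on which it acts in the standard way, such that the action does not extend
to a local `G`-action on any neighbourhood of that sphere. -/
def HasNonExtendableAction {m : ℕ} (Γ : Subgroup (SLn (m + 1))) : Prop :=
  ∃ (M : Type) (_ : TopologicalSpace M) (_ : ChartedSpace (Eu (m + 1)) M),
    IsSmoothManifold (m + 1) M ∧ ∃ (α : SmoothAction Γ M) (φ : Sph (m + 1) → M),
      IsSmoothEmbedding φ ∧ IsStandardOn α φ ∧ ¬ HasLocalExtension α (Set.range φ)

end Pool.Agent.Work.MP_20070e_gt
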