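import Pool.Agent.Work.MP_20070e_gt.SpecL

set_option autoImplicit false

/-!
# MP_20070e_gt : an order in a cyclic division algebra of degree three

`R3 = ℤ[η]`, `η = 2 cos (2 π / 7)`; the order is `R3 + R3 U + R3 U ^ 2` with `U ^ 3 = 2`.
-/

open Matrix

namespace Pool.Agent.Work.MP_20070e_gt

/-- the ring `ℤ[t] / (t ^ 3 + t ^ 2 - 2 t - 1)` -/
@[ext] structure R3 where
  a : ℤ
  b : ℤ
  c : ℤ

namespace R3

instance : Zero R3 := ⟨⟨0, 0, 0⟩⟩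
instance : One R3 := ⟨⟨1, 0, 0⟩⟩
instance : Add R3 := ⟨fun x y => ⟨x.a + y.a, x.b + y.b, x.c + y.c⟩⟩
instance : Neg R3 := ⟨fun x => ⟨-x.a, -x.b, -x.c⟩⟩
instance : Mul R3 := ⟨fun x y =>
  ⟨x.a * y.a + (x.b * y.c + x.c * y.b) - x.c * y.c,
   x.a * y.b + x.b * y.a + 2 * (x.b * y.c + x.c * y.b) - x.c * y.c,
   x.a * y.c + x.b * y.b + x.c * y.a - (x.b * y.c + x.c * y.b) + 3 * (x.c * y.c)⟩⟩

@[simp] theorem zero_a : (0 : R3).a = 0 := rfl
@[simp] theorem zero_b : (0 : R3).b = 0 := rfl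
@[simp] theorem zero_c : (0 : R3).c = 0 := rfl
@[simp] theorem one_a : (1 : R3).a = 1 := rfl
@[simp] theorem one_b : (1 : R3).b = 0 := rfl
@[simp] theorem one_c : (1 : R3).c = 0 := rfl
@[simp] theorem add_a (x y : R3) : (x + y).a = x.a + y.a := rfl
@[simp] theorem add_b (x y : R3) : (x + y).b = x.b + y.b := rfl
@[simp] theorem add_c (x y : R3) : (x + y).c = x.c + y.c := rfl
@[simp] theorem neg_a (x : R3) : (-x).a = -x.a := rfl
@[simp] theorem neg_b (x : R3) : (-x).b = -x.b := rfl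
@[simp] theorem neg_c (x : R3) : (-x).c = -x.c := rfl
@[simp] theorem mul_a (x y : R3) :
    (x * y).a = x.a * y.a + (x.b * y.c + x.c * y.b) - x.c * y.c := rfl
@[simp] theorem mul_b (x y : R3) :
    (x * y).b = x.a * y.b + x.b * y.a + 2 * (x.b * y.c + x.c * y.b) - x.c * y.c := rfl
@[simp] theorem mul_c (x y : R3) :
    (x * y).c = x.a * y.c + x.b * y.b + x.c * y.a - (x.b * y.c + x.c * y.b) +
      3 * (x.c * y.c) := rfl

instance : CommRing R3 := CommRing.ofMinimalAxioms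
  (by intro x y z; ext <;> simp <;> ring)
  (by intro x; ext <;> simp)
  (by intro x; ext <;> simp)
  (by intro x y z; ext <;> simp <;> ring)
  (by intro x y; ext <;> simp <;> ring)
  (by intro x; ext <;> simp)
  (by intro x y z; ext <;> simp <;> ring)

theorem two_eq : (2 : R3) = ⟨2, 0, 0⟩ := by
  rw [show (2 : R3) = 1 + 1 by norm_num]
  ext <;> simp
@[simp] theorem two_a : (2 : R3).a = 2 := by rw [two_eq]
@[simp] theorem two_b : (2 : R3).b = 0 := by rw [two_eq]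
@[simp] theorem two_c : (2 : R3).c = 0 := by rw [two_eq]
@[simp] theorem sub_a (x y : R3) : (x - y).a = x.a - y.a := by rw [sub_eq_add_neg]; simp; ring
@[simp] theorem sub_b (x y : R3) : (x - y).b = x.b - y.b := by rw [sub_eq_add_neg]; simp; ring
@[simp] theorem sub_c (x y : R3) : (x - y).c = x.c - y.c := by rw [sub_eq_add_neg]; simp; ring

/-- the generator of the Galois group -/
def S : R3 →+* R3 where
  toFun x := ⟨x.a - 2 * x.b + 3 * x.c, -x.c, x.b - x.c⟩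
  map_one' := by ext <;> simp
  map_zero' := by ext <;> simp
  map_add' x y := by ext <;> simp <;> ring
  map_mul' x y := by ext <;> simp <;> ring

theorem S_apply (x : R3) : S x = ⟨x.a - 2 * x.b + 3 * x.c, -x.c, x.b - x.c⟩ := rfl

@[simp] theorem S3 (x : R3) : S (S (S x)) = x := by
  rw [S_apply, S_apply, S_apply]
  ext <;> simp <;> ring

theorem fixed {x : R3} (h : S x = x) : x = ⟨x.a, 0, 0⟩ := by
  have h1 := congrArg R3.b h
  have h2 := congrArg R3.c h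
  rw [S_apply] at h1 h2
  simp only at h1 h2
  ext
  · rfl
  · show x.b = 0
    omega
  · show x.c = 0
    omega

/-- evaluation at a root of the minimal polynomial -/
def ev (t : ℝ) (ht : t ^ 3 + t ^ 2 - 2 * t - 1 = 0) : R3 →+* ℝ where
  toFun x := x.a + x.b * t + x.c * t ^ 2
  map_one' := by simp
  map_zero' := by simp
  map_add' x y := by simp; ring
  map_mul' x y := by
    simp only [mul_a, mul_b, mul_c]
    push_cast
    linear_combination (-(x.b * y.c + x.c * y.b : ℝ) - (x.c * y.c) * t + (x.c * y.c)) * ht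

theorem ev_apply (t : ℝ) (ht : t ^ 3 + t ^ 2 - 2 * t - 1 = 0) (x : R3) :
    ev t ht x = x.a + x.b * t + x.c * t ^ 2 := rfl

theorem ev_S {t s : ℝ} (ht : t ^ 3 + t ^ 2 - 2 * t - 1 = 0) (hs : s ^ 3 + s ^ 2 - 2 * s - 1 = 0)
    (h : s = t ^ 2 - 2) (x : R3) : ev t ht (S x) = ev s hs x := by
  rw [ev_apply, ev_apply, S_apply, h]
  push_cast
  linear_combination (-(x.c : ℝ) * t + x.c) * ht

end R3

/-- the three roots -/
structure Rts where
  t0 : ℝ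
  t1 : ℝ
  t2 : ℝ
  h0 : t0 ^ 3 + t0 ^ 2 - 2 * t0 - 1 = 0
  h1 : t1 ^ 3 + t1 ^ 2 - 2 * t1 - 1 = 0
  h2 : t2 ^ 3 + t2 ^ 2 - 2 * t2 - 1 = 0
  s0 : t1 = t0 ^ 2 - 2
  s1 : t2 = t1 ^ 2 - 2
  s2 : t0 = t2 ^ 2 - 2
  d01 : t0 ≠ t1
  d12 : t1 ≠ t2
  d02 : t0 ≠ t2
  prod : t0 * t1 * t2 = 1

theorem exists_rts : Nonempty Rts := by
  obtain ⟨t, ⟨ht1, ht2⟩, ht⟩ : ∃ t ∈ Set.Icc (1 : ℝ) 2, t ^ 3 + t ^ 2 - 2 * t - 1 = 0 := by
    have hc : ContinuousOn (fun t : ℝ => t ^ 3 + t ^ 2 - 2 * t - 1) (Set.Icc 1 2) := by fun_prop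
    have := intermediate_value_Icc (by norm_num : (1 : ℝ) ≤ 2) hc
    have h0 : (0 : ℝ) ∈ Set.Icc ((1 : ℝ) ^ 3 + 1 ^ 2 - 2 * 1 - 1) (2 ^ 3 + 2 ^ 2 - 2 * 2 - 1) := by
      constructor <;> norm_num
    obtain ⟨t, ht, h⟩ := this h0
    exact ⟨t, ht, h⟩
  have g1 : 1 < t := by
    rcases ht1.lt_or_eq with h | h
    · exact h
    · rw [← h] at ht; norm_num at ht
  have g2 : t < 2 := by
    rcases ht2.lt_or_eq with h | h
    · exact h
    · rw [h] at ht; norm_num at ht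
  have e2 : (t ^ 2 - 2) ^ 2 - 2 = 1 - t - t ^ 2 := by
    linear_combination (t - 1) * ht
  refine ⟨⟨t, t ^ 2 - 2, 1 - t - t ^ 2, ht, ?_, ?_, rfl, e2.symm, ?_, ?_, ?_, ?_, ?_⟩⟩
  · linear_combination (t ^ 3 - t ^ 2 - 2 * t + 1) * ht
  · linear_combination (-(t ^ 3) - 2 * t ^ 2 + t + 1) * ht
  · linear_combination (-(t + 1)) * ht
  · intro h
    have : (t - 2) * (t + 1) = 0 := by linear_combination -h
    rcases mul_eq_zero.mp this with h | h <;> linarith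
  · intro h
    have : (2 * t + 3) * (t - 1) = 0 := by linear_combination h
    rcases mul_eq_zero.mp this with h | h <;> linarith
  · intro h
    nlinarith
  · linear_combination (-(t ^ 2) + 1) * ht

namespace Rts

variable (T : Rts)

def v0 : R3 →+* ℝ := R3.ev T.t0 T.h0
def v1 : R3 →+* ℝ := R3.ev T.t1 T.h1
def v2 : R3 →+* ℝ := R3.ev T.t2 T.h2

theorem v0S (x : R3) : T.v0 (R3.S x) = T.v1 x := R3.ev_S _ _ T.s0 x
theorem v1S (x : R3) : T.v1 (R3.S x) = T.v2 x := R3.ev_S _ _ T.s1 x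
theorem v2S (x : R3) : T.v2 (R3.S x) = T.v0 x := R3.ev_S _ _ T.s2 x
theorem v0t : T.v0 2 = 2 := map_ofNat T.v0 2
theorem v1t : T.v1 2 = 2 := map_ofNat T.v1 2
theorem v2t : T.v2 2 = 2 := map_ofNat T.v2 2

/-- the element `x + y U + z U ^ 2` -/
def rho (x y z : R3) : Matrix (Fin 3) (Fin 3) ℝ :=
  !![T.v0 x, T.v0 y, T.v0 z; 2 * T.v1 z, T.v1 x, T.v1 y; 2 * T.v2 y, 2 * T.v2 z, T.v2 x]

theorem rho_mul (x y z x' y' z' : R3) : T.rho x y z * T.rho x' y' z' =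
    T.rho (x * x' + 2 * (y * R3.S z') + 2 * (z * R3.S (R3.S y')))
      (x * y' + y * R3.S x' + 2 * (z * R3.S (R3.S z')))
      (x * z' + y * R3.S y' + z * R3.S (R3.S x')) := by
  ext i j
  fin_cases i <;> fin_cases j <;>
    simp [rho, Matrix.mul_apply, Fin.sum_univ_three, v0S, v1S, v2S, v0t, v1t, v2t] <;> ring

theorem rho_adj (x y z : R3) : adjugate (T.rho x y z) =
    T.rho (R3.S x * R3.S (R3.S x) - 2 * (R3.S y * R3.S (R3.S z)))
      (2 * (z * R3.S (R3.S z)) - y * R3.S (R3.S x))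
      (y * R3.S y - z * R3.S x) := by
  rw [Matrix.adjugate_fin_three]
  ext i j
  fin_cases i <;> fin_cases j <;>
    simp [rho, v0S, v1S, v2S, v0t, v1t, v2t] <;> ring

end Rts

/-- the reduced norm -/
def dt (x y z : R3) : R3 :=
  x * R3.S x * R3.S (R3.S x) + 2 * (y * R3.S y * R3.S (R3.S y)) +
    2 * (2 * (z * R3.S z * R3.S (R3.S z))) -
    2 * (x * R3.S y * R3.S (R3.S z) + z * R3.S x * R3.S (R3.S y) + y * R3.S z * R3.S (R3.S x))

theorem Rts.rho_det (T : Rts) (x y z : R3) : (T.rho x y z).det = T.v0 (dt x y z) := by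
  rw [Matrix.det_fin_three]
  simp [Rts.rho, dt, Rts.v0S, Rts.v1S, Rts.v0t]
  ring

theorem dt_fixed (x y z : R3) : R3.S (dt x y z) = dt x y z := by
  simp only [dt, map_sub, map_add, map_mul, R3.S3, map_ofNat]
  ring

/-- the norm form -/
def nm (x : R3) : R3 := x * R3.S x * R3.S (R3.S x)

theorem nm_fixed (x : R3) : R3.S (nm x) = nm x := by
  simp only [nm, map_mul, R3.S3]
  ring

/-- the trilinear form -/
def tr (x y z : R3) : R3 :=
  x * R3.S y * R3.S (R3.S z) + z * R3.S x * R3.S (R3.S y) + y * R3.S z * R3.S (R3.S x)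

theorem dt_a (x y z : R3) : (dt x y z).a =
    (nm x).a + 2 * (nm y).a + 4 * (nm z).a - 2 * (tr x y z).a := by
  simp [dt, nm, tr]
  ring

/-- the norm modulo two -/
theorem nm_even {x : R3} (h : (2 : ℤ) ∣ (nm x).a) : (2 : ℤ) ∣ x.a ∧ (2 : ℤ) ∣ x.b ∧ (2 : ℤ) ∣ x.c := by
  have h2 : (((nm x).a : ℤ) : ZMod 2) = 0 := (ZMod.intCast_zmod_eq_zero_iff_dvd _ 2).mpr h
  have e : ∀ k : ℤ, (2 : ℤ) ∣ k ↔ ((k : ℤ) : ZMod 2) = 0 := fun k =>
    (ZMod.intCast_zmod_eq_zero_iff_dvd k 2).symm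
  rw [e, e, e]
  simp only [nm, R3.S_apply, R3.mul_a, R3.mul_b, R3.mul_c] at h2
  push_cast at h2
  generalize (x.a : ZMod 2) = a at h2 ⊢
  generalize (x.b : ZMod 2) = b at h2 ⊢
  generalize (x.c : ZMod 2) = c at h2 ⊢
  revert a b c
  decide

theorem half {x : R3} (h : (2 : ℤ) ∣ (nm x).a) : ∃ x', x = 2 * x' := by
  obtain ⟨⟨a, ha⟩, ⟨b, hb⟩, ⟨c, hc⟩⟩ := nm_even h
  refine ⟨⟨a, b, c⟩, ?_⟩
  ext <;> simp [ha, hb, hc]

theorem nm_two (x : R3) : (nm (2 * x)).a = 8 * (nm x).a := by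
  have : nm (2 * x) = 2 * (2 * (2 * nm x)) := by
    simp only [nm, map_mul, map_ofNat]; ring
  rw [this]
  simp
  ring

theorem two_mul_a (x : R3) : (2 * x).a = 2 * x.a := by simp

theorem tr_two₁ (x y z : R3) : (tr (2 * x) y z).a = 2 * (tr x y z).a := by
  rw [← two_mul_a]
  congr 1
  simp only [tr, map_mul, map_ofNat]; ring

theorem tr_two₂ (x y z : R3) : (tr x (2 * y) z).a = 2 * (tr x y z).a := by
  rw [← two_mul_a]
  congr 1
  simp only [tr, map_mul, map_ofNat]; ring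

theorem tr_two₃ (x y z : R3) : (tr x y (2 * z)).a = 2 * (tr x y z).a := by
  rw [← two_mul_a]
  congr 1
  simp only [tr, map_mul, map_ofNat]; ring

def sz (x : R3) : ℕ := x.a.natAbs + x.b.natAbs + x.c.natAbs

theorem sz_two (x : R3) : sz (2 * x) = 2 * sz x := by
  simp only [sz, R3.mul_a, R3.mul_b, R3.mul_c, R3.two_a, R3.two_b, R3.two_c]
  omega

theorem sz_zero {x : R3} (h : sz x = 0) : x = 0 := by
  simp only [sz] at h
  ext
  · show x.a = 0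
    omega
  · show x.b = 0
    omega
  · show x.c = 0
    omega

theorem dt_descent (n : ℕ) : ∀ x y z : R3, sz x + sz y + sz z ≤ n → (dt x y z).a = 0 →
    x = 0 ∧ y = 0 ∧ z = 0 := by
  induction n with
  | zero =>
    intro x y z h _
    exact ⟨sz_zero (by omega), sz_zero (by omega), sz_zero (by omega)⟩
  | succ n ih =>
    intro x y z h h0
    have h1 := h0
    rw [dt_a] at h0
    obtain ⟨x', rfl⟩ : ∃ x', x = 2 * x' := half (by omega)
    rw [nm_two, tr_two₁] at h0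
    obtain ⟨y', rfl⟩ : ∃ y', y = 2 * y' := half (by omega)
    rw [nm_two, tr_two₂] at h0
    obtain ⟨z', rfl⟩ : ∃ z', z = 2 * z' := half (by omega)
    rw [nm_two, tr_two₃] at h0
    rw [sz_two, sz_two, sz_two] at h
    obtain ⟨hx, hy, hz⟩ := ih x' y' z' (by omega) (by rw [dt_a]; omega)
    rw [hx, hy, hz]
    simp

/-- the nine basis elements -/
noncomputable def Rts.BB (T : Rts) : Fin 9 → Matrix (Fin 3) (Fin 3) ℝ :=
  ![T.rho ⟨1, 0, 0⟩ 0 0, T.rho ⟨0, 1, 0⟩ 0 0, T.rho ⟨0, 0, 1⟩ 0 0,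
    T.rho 0 ⟨1, 0, 0⟩ 0, T.rho 0 ⟨0, 1, 0⟩ 0, T.rho 0 ⟨0, 0, 1⟩ 0,
    T.rho 0 0 ⟨1, 0, 0⟩, T.rho 0 0 ⟨0, 1, 0⟩, T.rho 0 0 ⟨0, 0, 1⟩]

theorem Rts.v0_mk (T : Rts) (a b c : ℤ) : T.v0 ⟨a, b, c⟩ = a + b * T.t0 + c * T.t0 ^ 2 := rfl
theorem Rts.v1_mk (T : Rts) (a b c : ℤ) : T.v1 ⟨a, b, c⟩ = a + b * T.t1 + c * T.t1 ^ 2 := rfl
theorem Rts.v2_mk (T : Rts) (a b c : ℤ) : T.v2 ⟨a, b, c⟩ = a + b * T.t2 + c * T.t2 ^ 2 := rfl

theorem Rts.sum_BB (T : Rts) (g : Fin 9 → ℝ) : ∑ k, g k • T.BB k =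
    !![g 0 + g 1 * T.t0 + g 2 * T.t0 ^ 2, g 3 + g 4 * T.t0 + g 5 * T.t0 ^ 2,
        g 6 + g 7 * T.t0 + g 8 * T.t0 ^ 2;
      2 * (g 6 + g 7 * T.t1 + g 8 * T.t1 ^ 2), g 0 + g 1 * T.t1 + g 2 * T.t1 ^ 2,
        g 3 + g 4 * T.t1 + g 5 * T.t1 ^ 2;
      2 * (g 3 + g 4 * T.t2 + g 5 * T.t2 ^ 2), 2 * (g 6 + g 7 * T.t2 + g 8 * T.t2 ^ 2),
        g 0 + g 1 * T.t2 + g 2 * T.t2 ^ 2] := by
  ext i j
  fin_cases i <;> fin_cases j <;>
    simp [BB, rho, Fin.sum_univ_succ, v0_mk, v1_mk, v2_mk, Matrix.add_apply] <;> ring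

theorem Rts.comb_BB (T : Rts) (c : Fin 9 → ℤ) :
    comb T.BB c = T.rho ⟨c 0, c 1, c 2⟩ ⟨c 3, c 4, c 5⟩ ⟨c 6, c 7, c 8⟩ := by
  rw [comb, T.sum_BB]
  simp only [rho, v0_mk, v1_mk, v2_mk]

theorem Rts.comb_rho (T : Rts) (x y z : R3) :
    T.rho x y z = comb T.BB ![x.a, x.b, x.c, y.a, y.b, y.c, z.a, z.b, z.c] := by
  rw [T.comb_BB]
  rfl

theorem Rts.vdm (T : Rts) {a b c : ℝ} (h0 : a + b * T.t0 + c * T.t0 ^ 2 = 0)
    (h1 : a + b * T.t1 + c * T.t1 ^ 2 = 0) (h2 : a + b * T.t2 + c * T.t2 ^ 2 = 0) :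
    a = 0 ∧ b = 0 ∧ c = 0 := by
  have d01 := sub_ne_zero.mpr T.d01
  have d02 := sub_ne_zero.mpr T.d02
  have d12 := sub_ne_zero.mpr T.d12
  have e1 : b + c * (T.t0 + T.t1) = 0 := by
    have : (T.t0 - T.t1) * (b + c * (T.t0 + T.t1)) = 0 := by linear_combination h0 - h1
    exact (mul_eq_zero.mp this).resolve_left d01
  have e2 : b + c * (T.t0 + T.t2) = 0 := by
    have : (T.t0 - T.t2) * (b + c * (T.t0 + T.t2)) = 0 := by linear_combination h0 - h2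
    exact (mul_eq_zero.mp this).resolve_left d02
  have e3 : c = 0 := by
    have : (T.t1 - T.t2) * c = 0 := by linear_combination e1 - e2
    exact (mul_eq_zero.mp this).resolve_left d12
  have e4 : b = 0 := by rw [e3] at e1; linarith
  refine ⟨?_, e4, e3⟩
  rw [e3, e4] at h0
  linarith

theorem exists_orderData : Nonempty OrderData := by
  obtain ⟨T⟩ := exists_rts
  have hdet : ∀ c : Fin 9 → ℤ, (comb T.BB c).det =
      (((dt ⟨c 0, c 1, c 2⟩ ⟨c 3, c 4, c 5⟩ ⟨c 6, c 7, c 8⟩).a : ℤ) : ℝ) := by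
    intro c
    rw [T.comb_BB, T.rho_det]
    rw [R3.fixed (dt_fixed ⟨c 0, c 1, c 2⟩ ⟨c 3, c 4, c 5⟩ ⟨c 6, c 7, c 8⟩)]
    rw [T.v0_mk]
    simp
  refine ⟨{ B := T.BB, indep := ?_, one := ?_, mul := ?_, adj := ?_, det_int := ?_,
            det_ne := ?_, unit := ?_ }⟩
  · rw [Fintype.linearIndependent_iff]
    intro g hg
    rw [T.sum_BB] at hg
    have H : ∀ i j, _ = (0 : Matrix (Fin 3) (Fin 3) ℝ) i j := fun i j => congrFun (congrFun hg i) j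
    have a00 := H 0 0
    have a01 := H 0 1
    have a02 := H 0 2
    have a10 := H 1 0
    have a11 := H 1 1
    have a12 := H 1 2
    have a20 := H 2 0
    have a21 := H 2 1
    have a22 := H 2 2
    simp at a00 a01 a02 a10 a11 a12 a20 a21 a22
    obtain ⟨x0, x1, x2⟩ := T.vdm a00 a11 a22
    obtain ⟨y0, y1, y2⟩ := T.vdm a01 a12 a20
    obtain ⟨z0, z1, z2⟩ := T.vdm a02 a10 a21
    intro i
    fin_cases i <;> simp [x0, x1, x2, y0, y1, y2, z0, z1, z2]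
  · refine ⟨![1, 0, 0, 0, 0, 0, 0, 0, 0], ?_⟩
    rw [T.comb_BB]
    ext i j
    fin_cases i <;> fin_cases j <;> simp [Rts.rho, Rts.v0_mk, Rts.v1_mk, Rts.v2_mk]
  · intro c d
    rw [T.comb_BB, T.comb_BB, T.rho_mul]
    exact ⟨_, T.comb_rho _ _ _⟩
  · intro c
    rw [T.comb_BB, T.rho_adj]
    exact ⟨_, T.comb_rho _ _ _⟩
  · intro c
    exact ⟨_, hdet c⟩
  · intro c hc h0
    rw [hdet] at h0
    have h1 := dt_descent _ _ _ _ le_rfl (by exact_mod_cast h0)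
    apply hc
    obtain ⟨hx, hy, hz⟩ := h1
    rw [R3.ext_iff] at hx hy hz
    simp only [R3.zero_a, R3.zero_b, R3.zero_c] at hx hy hz
    funext i
    fin_cases i
    · exact hx.1
    · exact hx.2.1
    · exact hx.2.2
    · exact hy.1
    · exact hy.2.1
    · exact hy.2.2
    · exact hz.1
    · exact hz.2.1
    · exact hz.2.2
  · refine ⟨![9, 14, -14, 0, 0, 0, 0, 0, 0], ![4, 7, -7, 0, 0, 0, 0, 0, 0], ?_, ?_, 1, ?_⟩
    · rw [hdet]
      simp [dt, R3.S_apply]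
    · rw [T.comb_BB, T.comb_BB, two_mul]
      ext i j
      fin_cases i <;> fin_cases j <;>
        simp [Rts.rho, Rts.v0_mk, Rts.v1_mk, Rts.v2_mk] <;> ring
    · decide

end Pool.Agent.Work.MP_20070e_gt
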