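import Pool.Agent.Work.MP_20070e_gt.SpecL

set_option autoImplicit false

open Matrix MeasureTheory

namespace Pool.Agent.Work.MP_20070e_gt

/-- Minkowski's theorem on linear forms: if the absolute value of the determinant is `< R ^ n`
then some nonzero integer vector satisfies `|(M c)_q| ≤ R` for all `q`. -/
lemma exists_int_of_det {ι : Type} [Fintype ι] [DecidableEq ι] (M : Matrix ι ι ℝ) (hM : M.det ≠ 0)
    (R : ℝ) (hR0 : 0 < R) (hR : |M.det| < R ^ Fintype.card ι) :
    ∃ c : ι → ℤ, c ≠ 0 ∧ ∀ q, |(M.mulVec (fun p => (c p : ℝ))) q| ≤ R := by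
  let box : Set (ι → ℝ) := Set.pi Set.univ (fun _ => Set.Ioo (-R) R)
  let s : Set (ι → ℝ) := (toLin' M) ⁻¹' box
  have hbox : MeasurableSet box := MeasurableSet.univ_pi (fun _ => measurableSet_Ioo)
  have hvol : volume s = ENNReal.ofReal |(M.det)⁻¹| * ENNReal.ofReal ((2 * R) ^ Fintype.card ι) := by
    have h1 := Real.map_matrix_volume_pi_eq_smul_volume_pi hM
    have h2 : Measure.map (toLin' M) volume box = volume s := by
      rw [Measure.map_apply _ hbox]
      exact (LinearMap.continuous_of_finiteDimensional (toLin' M)).measurable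
    rw [← h2, h1, Measure.smul_apply, smul_eq_mul]
    congr 1
    rw [Real.volume_pi_Ioo]
    simp only [sub_neg_eq_add, Finset.prod_const, Finset.card_univ]
    rw [← ENNReal.ofReal_pow (by positivity)]
    ring_nf
  have hsymm : ∀ x ∈ s, -x ∈ s := by
    intro x hx
    have hx' : toLin' M x ∈ box := hx
    show toLin' M (-x) ∈ box
    rw [map_neg]
    intro i hi
    have := hx' i hi
    rw [Pi.neg_apply]
    exact ⟨by linarith [this.2], by linarith [this.1]⟩
  have hconv : Convex ℝ s := by
    refine Convex.linear_preimage ?_ (toLin' M)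
    exact convex_pi (fun _ _ => convex_Ioo _ _)
  let b := Pi.basisFun ℝ ι
  have hF := ZSpan.isAddFundamentalDomain' b (volume : Measure (ι → ℝ))
  have hFv : volume (ZSpan.fundamentalDomain b) = 1 := by
    rw [ZSpan.fundamentalDomain_pi_basisFun, volume_pi, Measure.pi_pi]
    simp
  have hcount : Countable (Submodule.span ℤ (Set.range b)).toAddSubgroup :=
    inferInstanceAs (Countable (Submodule.span ℤ (Set.range b)))
  have hlt : volume (ZSpan.fundamentalDomain b) * 2 ^ Module.finrank ℝ (ι → ℝ) < volume s := by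
    rw [hFv, one_mul, hvol, Module.finrank_fintype_fun_eq_card, ← ENNReal.ofReal_mul (abs_nonneg _)]
    have h3 : (2 : ENNReal) ^ Fintype.card ι = ENNReal.ofReal (2 ^ Fintype.card ι) := by
      rw [ENNReal.ofReal_pow (by norm_num)]
      simp
    rw [h3]
    have hdet : 0 < |M.det| := abs_pos.2 hM
    refine (ENNReal.ofReal_lt_ofReal_iff ?_).2 ?_
    · rw [abs_inv]
      positivity
    · rw [abs_inv, mul_pow, ← mul_assoc, mul_comm (|M.det|⁻¹), mul_assoc]
      refine lt_mul_of_one_lt_right (by positivity) ?_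
      rw [lt_inv_mul_iff₀ hdet, mul_one]
      exact hR
  obtain ⟨x, hx0, hxs⟩ := exists_ne_zero_mem_lattice_of_measure_mul_two_pow_lt_measure hF hsymm hconv hlt
  have hxL : (x : ι → ℝ) ∈ Submodule.span ℤ (Set.range b) := x.2
  rw [b.mem_span_iff_repr_mem ℤ] at hxL
  choose c hc using hxL
  have hc' : (fun p => (c p : ℝ)) = (x : ι → ℝ) := by
    funext p
    have := hc p
    simpa [b] using this
  refine ⟨c, ?_, ?_⟩
  · rintro rfl
    apply hx0
    apply Subtype.ext
    rw [← hc']
    funext p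
    simp
  · intro q
    have h4 : toLin' M (x : ι → ℝ) ∈ box := hxs
    have h5 := h4 q (Set.mem_univ q)
    rw [hc', abs_le]
    rw [toLin'_apply] at h5
    exact ⟨h5.1.le, h5.2.le⟩

open Kronecker in
/-- MODULE L2 (Minkowski's theorem in dimension 9) -/
theorem minkProp_of_indep (B : Fin 9 → Matrix (Fin 3) (Fin 3) ℝ) (hB : LinearIndependent ℝ B) :
    MinkProp B := by
  let e : Fin 3 × Fin 3 ≃ Fin 9 := finProdFinEquiv
  let A : Matrix (Fin 3 × Fin 3) (Fin 3 × Fin 3) ℝ := fun q p => B (e p) q.1 q.2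
  have hA : A.det ≠ 0 := by
    have h1 : LinearIndependent ℝ A.col := by
      have h2 : LinearIndependent ℝ (B ∘ e) := hB.comp e e.injective
      let T : Matrix (Fin 3) (Fin 3) ℝ ≃ₗ[ℝ] (Fin 3 × Fin 3 → ℝ) :=
        (LinearEquiv.curry ℝ ℝ (Fin 3) (Fin 3)).symm
      have h3 := h2.map' (T : Matrix (Fin 3) (Fin 3) ℝ →ₗ[ℝ] (Fin 3 × Fin 3 → ℝ)) T.ker
      exact h3
    rw [linearIndependent_cols_iff_isUnit, isUnit_iff_isUnit_det] at h1
    exact h1.ne_zero
  have hAp : 0 < |A.det| := abs_pos.2 hA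
  refine ⟨|A.det| + 1, by positivity, fun g => ?_⟩
  let G : Matrix (Fin 3 × Fin 3) (Fin 3 × Fin 3) ℝ := g.1 ⊗ₖ (1 : Matrix (Fin 3) (Fin 3) ℝ)
  have hG : G.det = 1 := by
    show (g.1 ⊗ₖ (1 : Matrix (Fin 3) (Fin 3) ℝ)).det = 1
    rw [det_kronecker, g.2, det_one, one_pow, one_mul]
  have hGA : (G * A).det = A.det := by rw [det_mul, hG, one_mul]
  obtain ⟨c, hc0, hc⟩ := exists_int_of_det (G * A) (by rw [hGA]; exact hA) (|A.det| + 1) (by positivity) (by
    rw [hGA]
    have h1 : (1:ℝ) ≤ |A.det| + 1 := by linarith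
    calc |A.det| < |A.det| + 1 := by linarith
      _ ≤ (|A.det| + 1) ^ Fintype.card (Fin 3 × Fin 3) := le_self_pow₀ h1 (by simp))
  refine ⟨fun k => c (e.symm k), ?_, ?_⟩
  · intro h
    apply hc0
    funext p
    have := congrFun h (e p)
    simpa using this
  · intro i j
    have h1 := hc (i, j)
    have h2 : ((G * A).mulVec (fun p => (c p : ℝ))) (i, j) =
        (g.1 * comb B (fun k => c (e.symm k))) i j := by
      rw [← mulVec_mulVec]
      have h3 : A.mulVec (fun p => (c p : ℝ)) = fun q => (comb B (fun k => c (e.symm k))) q.1 q.2 := by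
        funext q
        simp only [mulVec, dotProduct, comb, Matrix.sum_apply, Matrix.smul_apply, smul_eq_mul]
        rw [← e.sum_comp]
        refine Finset.sum_congr rfl (fun p _ => ?_)
        simp only [A, Equiv.symm_apply_apply]
        ring
      rw [h3]
      simp only [mulVec, dotProduct, G, kroneckerMap_apply, Matrix.mul_apply, Fintype.sum_prod_type,
        Matrix.one_apply]
      refine Finset.sum_congr rfl (fun l _ => ?_)
      simp
    rw [← h2]
    exact h1

end Pool.Agent.Work.MP_20070e_gt
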