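import Pool.Agent.Work.MP_20070e_gt.SpecL

set_option autoImplicit false

open Matrix Topology

namespace Pool.Agent.Work.MP_20070e_gt

section comb

variable (B : Fin 9 → Matrix (Fin 3) (Fin 3) ℝ)

lemma comb_add (c d : Fin 9 → ℤ) : comb B (c + d) = comb B c + comb B d := by
  simp [comb, add_smul, Finset.sum_add_distrib]

lemma comb_zero : comb B 0 = 0 := by
  simp [comb]

lemma comb_smul (z : ℤ) (c : Fin 9 → ℤ) : comb B (z • c) = (z : ℝ) • comb B c := by
  simp [comb, Finset.smul_sum, mul_smul]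

lemma comb_neg (c : Fin 9 → ℤ) : comb B (-c) = - comb B c := by
  simp [comb]

lemma comb_sub (c d : Fin 9 → ℤ) : comb B (c - d) = comb B c - comb B d := by
  rw [sub_eq_add_neg, comb_add, comb_neg, ← sub_eq_add_neg]

end comb

section lattice

variable (D : OrderData)

lemma comb_inj {c d : Fin 9 → ℤ} (h : comb D.B c = comb D.B d) : c = d := by
  by_contra hne
  have h1 : c - d ≠ 0 := sub_ne_zero.2 hne
  apply D.det_ne _ h1
  rw [comb_sub, h, sub_self, det_zero]

lemma two_smul_inj {c d : Fin 9 → ℤ}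
    (h : (1 : Matrix (Fin 3) (Fin 3) ℝ) + (2:ℝ) • comb D.B c = 1 + (2:ℝ) • comb D.B d) : c = d := by
  apply comb_inj D
  have h1 := add_left_cancel h
  exact smul_right_injective _ (two_ne_zero) h1

/-- the congruence subgroup of the order -/
def GamO : Subgroup (SLn 3) where
  carrier := {g | ∃ c, g.1 = 1 + (2:ℝ) • comb D.B c}
  mul_mem' := by
    rintro g h ⟨c, hc⟩ ⟨d, hd⟩
    obtain ⟨e, he⟩ := D.mul c d
    refine ⟨c + d + (2:ℤ) • e, ?_⟩
    have h0 : (g * h : SLn 3).1 = g.1 * h.1 := rfl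
    rw [h0, hc, hd, comb_add, comb_add, comb_smul, ← he]
    simp only [mul_add, add_mul, one_mul, mul_one, smul_mul_assoc, mul_smul_comm, smul_add, smul_smul]
    push_cast
    abel
  one_mem' := ⟨0, by rw [comb_zero, smul_zero, add_zero]; rfl⟩
  inv_mem' := by
    rintro g ⟨c, hc⟩
    obtain ⟨o, ho⟩ := D.one
    obtain ⟨e, he⟩ := D.adj (o + (2:ℤ) • c)
    obtain ⟨f, hf⟩ := D.mul c e
    have h1 : (g⁻¹).1 = comb D.B e := by
      have h0 : (g⁻¹).1 = adjugate g.1 := rfl
      rw [h0, ← he, comb_add, comb_smul, ho, hc]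
      norm_num
    have h2 : g.1 * (g⁻¹).1 = 1 := congrArg Subtype.val (mul_inv_cancel g)
    refine ⟨-f, ?_⟩
    rw [h1, hc, add_mul, one_mul, smul_mul_assoc, hf] at h2
    rw [h1, comb_neg, smul_neg, ← h2]
    abel

lemma GamO_discrete : IsDiscreteSubgroup (GamO D) := by
  refine ⟨{h | |(h.1 - 1).det| < 1}, ?_, ?_⟩
  · have hc : Continuous (fun h : SLn 3 => |(h.1 - 1).det|) := by
      have h1 : Continuous (fun h : SLn 3 => h.1) := continuous_subtype_val
      exact ((h1.sub continuous_const).matrix_det).abs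
    refine (isOpen_lt hc continuous_const).mem_nhds ?_
    simp
  · rintro γ ⟨c, hc⟩ hγ
    have h1 : γ.1 - 1 = comb D.B ((2:ℤ) • c) := by
      rw [hc, comb_smul, add_sub_cancel_left]
      norm_num
    have hγ' : |(γ.1 - 1).det| < 1 := hγ
    rw [h1] at hγ'
    obtain ⟨z, hz⟩ := D.det_int ((2:ℤ) • c)
    rw [hz] at hγ'
    have h2 : z = 0 := by
      have : |z| < 1 := by exact_mod_cast hγ'
      exact Int.abs_lt_one_iff.1 this
    have h3 : (2:ℤ) • c = 0 := by
      by_contra hne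
      apply D.det_ne _ hne
      rw [hz, h2, Int.cast_zero]
    rw [h3, comb_zero, sub_eq_zero] at h1
    exact Subtype.ext h1

lemma compact_bounded (C : ℝ) : IsCompact {h : SLn 3 | ∀ i j, |h.1 i j| ≤ C} := by
  have h1 : IsCompact (Set.pi Set.univ (fun _ : Fin 3 => Set.pi Set.univ
      (fun _ : Fin 3 => Set.Icc (-C) C)) : Set (Matrix (Fin 3) (Fin 3) ℝ)) :=
    isCompact_univ_pi (fun _ => isCompact_univ_pi (fun _ => isCompact_Icc))
  have h2 := SpecialLinearGroup.isClosedEmbedding_val (n := Fin 3) (R := ℝ) |>.isCompact_preimage h1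
  have h3 : {h : SLn 3 | ∀ i j, |h.1 i j| ≤ C} = (fun h : SLn 3 => h.1) ⁻¹'
      (Set.pi Set.univ (fun _ : Fin 3 => Set.pi Set.univ
      (fun _ : Fin 3 => Set.Icc (-C) C)) : Set (Matrix (Fin 3) (Fin 3) ℝ)) := by
    ext h
    constructor
    · intro hh i _ j _
      exact abs_le.1 (hh i j)
    · intro hh i j
      exact abs_le.2 (hh i (Set.mem_univ i) j (Set.mem_univ j))
  rw [h3]
  exact h2

theorem GamO_cocompact (hM : MinkProp D.B) :
    ∃ K : Set (SLn 3), IsCompact K ∧ ∀ g : SLn 3, ∃ γ ∈ GamO D, g * γ ∈ K := by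
  classical
  obtain ⟨R, hR0, hR⟩ := hM
  set C : ℕ := ⌈(Nat.factorial 3 : ℝ) * R ^ 3⌉₊ with hC
  set m : ℕ := 2 * C.factorial with hm
  have hm0 : m ≠ 0 := by positivity
  have : NeZero m := ⟨hm0⟩
  let P : ℤ × (Fin 9 → ZMod m) → (Fin 9 → ℤ) → Prop := fun k c =>
    (comb D.B c).det = (k.1 : ℝ) ∧ ∀ i, ((c i : ℤ) : ZMod m) = k.2 i
  let rep : ℤ × (Fin 9 → ZMod m) → (Fin 9 → ℤ) := fun k => if h : ∃ c, P k c then h.choose else 0
  have hrep : ∀ k c, P k c → P k (rep k) := by
    intro k c h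
    have h' : ∃ c, P k c := ⟨c, h⟩
    simp only [rep, dif_pos h']
    exact h'.choose_spec
  let Y : ℤ × (Fin 9 → ZMod m) → Matrix (Fin 3) (Fin 3) ℝ := fun k =>
    ((k.1 : ℝ))⁻¹ • adjugate (comb D.B (rep k))
  let keys : Finset (ℤ × (Fin 9 → ZMod m)) := Finset.Icc (-(C:ℤ)) C ×ˢ Finset.univ
  let E : ℝ := ∑ k ∈ keys, ∑ j, ∑ l, |Y k l j|
  refine ⟨{h | ∀ i j, |h.1 i j| ≤ R * E}, compact_bounded _, fun g => ?_⟩
  obtain ⟨c, hc0, hc⟩ := hR g
  obtain ⟨z, hz⟩ := D.det_int c
  have hz0 : z ≠ 0 := by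
    rintro rfl
    exact D.det_ne c hc0 (by rw [hz, Int.cast_zero])
  have hzR : (z : ℝ) ≠ 0 := Int.cast_ne_zero.2 hz0
  have hzC : |z| ≤ C := by
    have h1 : |(g.1 * comb D.B c).det| ≤ (Nat.factorial 3 : ℝ) * R ^ 3 := by
      have := det_le (A := g.1 * comb D.B c) (abv := AbsoluteValue.abs) (x := R) hc
      simpa using this
    rw [det_mul, g.2, one_mul, hz] at h1
    have h2 : ((|z| : ℤ) : ℝ) ≤ (C : ℝ) := by
      push_cast
      exact h1.trans (Nat.le_ceil _)
    exact_mod_cast h2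
  let k : ℤ × (Fin 9 → ZMod m) := (z, fun i => ((c i : ℤ) : ZMod m))
  have hk : k ∈ keys := by
    rw [Finset.mem_product]
    exact ⟨Finset.mem_Icc.2 (abs_le.1 hzC), Finset.mem_univ _⟩
  have hPc : P k c := ⟨hz, fun i => rfl⟩
  obtain ⟨hd1, hd2⟩ := hrep k c hPc
  set d := rep k with hd
  have hw : ∀ i, ∃ w : ℤ, c i = d i + m * w := by
    intro i
    have h1 : ((d i : ℤ) : ZMod m) = ((c i : ℤ) : ZMod m) := hd2 i
    rw [ZMod.intCast_eq_intCast_iff] at h1
    obtain ⟨w, hw⟩ := h1.dvd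
    exact ⟨w, by linarith⟩
  choose w hw using hw
  have hcd : comb D.B c = comb D.B d + (m : ℝ) • comb D.B w := by
    have h1 : c = d + (m : ℤ) • w := by
      funext i
      rw [Pi.add_apply, Pi.smul_apply, smul_eq_mul, hw i]
    conv_lhs => rw [h1]
    rw [comb_add, comb_smul]
    push_cast
    rfl
  obtain ⟨e, he⟩ := D.adj d
  obtain ⟨f, hf⟩ := D.mul w e
  obtain ⟨t, ht⟩ : ∃ t : ℤ, (C.factorial : ℤ) = z * t := by
    have h1 : z.natAbs ∣ C.factorial := by
      apply Nat.dvd_factorial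
      · exact Int.natAbs_pos.2 hz0
      · have : (z.natAbs : ℤ) ≤ C := by
          rw [Int.natCast_natAbs]
          exact hzC
        exact_mod_cast this
    have h2 : z ∣ (C.factorial : ℤ) := by
      rw [← Int.natAbs_dvd]
      exact_mod_cast h1
    exact h2
  have hX : comb D.B c * Y k = 1 + (2:ℝ) • comb D.B (t • f) := by
    have h1 : Y k = (z : ℝ)⁻¹ • adjugate (comb D.B d) := rfl
    have h2 : comb D.B d * adjugate (comb D.B d) = (z : ℝ) • (1 : Matrix (Fin 3) (Fin 3) ℝ) := by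
      rw [mul_adjugate, hd1]
    rw [h1, mul_smul_comm, hcd, add_mul, h2, smul_mul_assoc, he, hf, smul_add, smul_smul, smul_smul,
      inv_mul_cancel₀ hzR, one_smul, comb_smul, smul_smul]
    congr 2
    have h3 : (m : ℝ) = 2 * (z * t) := by
      have : ((C.factorial : ℤ) : ℝ) = z * t := by
        rw [ht]
        push_cast
        rfl
      rw [hm]
      push_cast at this ⊢
      rw [this]
    rw [h3]
    field_simp
  have hdet : (comb D.B c * Y k).det = 1 := by
    have h1 : Y k = (z : ℝ)⁻¹ • adjugate (comb D.B d) := rfl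
    rw [det_mul, h1, det_smul, det_adjugate, hd1, hz]
    have h2 : (k.1 : ℝ) = z := rfl
    rw [h2]
    simp only [Fintype.card_fin]
    field_simp
  refine ⟨⟨comb D.B c * Y k, hdet⟩, ⟨t • f, hX⟩, fun i j => ?_⟩
  have h5 : (g * ⟨comb D.B c * Y k, hdet⟩ : SLn 3).1 i j = ∑ l, (g.1 * comb D.B c) i l * Y k l j := by
    show (g.1 * (comb D.B c * Y k)) i j = _
    rw [← mul_assoc, Matrix.mul_apply]
  rw [h5]
  calc |∑ l, (g.1 * comb D.B c) i l * Y k l j| ≤ ∑ l, |(g.1 * comb D.B c) i l * Y k l j| :=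
        Finset.abs_sum_le_sum_abs _ _
    _ ≤ ∑ l, R * |Y k l j| := by
        refine Finset.sum_le_sum (fun l _ => ?_)
        rw [abs_mul]
        exact mul_le_mul_of_nonneg_right (hc i l) (abs_nonneg _)
    _ = R * ∑ l, |Y k l j| := by rw [Finset.mul_sum]
    _ ≤ R * E := by
        refine mul_le_mul_of_nonneg_left ?_ hR0.le
        calc ∑ l, |Y k l j| ≤ ∑ j, ∑ l, |Y k l j| :=
              Finset.single_le_sum (f := fun j => ∑ l, |Y k l j|)
                (fun _ _ => Finset.sum_nonneg (fun _ _ => abs_nonneg _)) (Finset.mem_univ j)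
          _ ≤ E := Finset.single_le_sum (f := fun k => ∑ j, ∑ l, |Y k l j|)
                (fun _ _ => Finset.sum_nonneg (fun _ _ => Finset.sum_nonneg (fun _ _ => abs_nonneg _))) hk

/-- MODULE L3 -/
theorem exists_lattice_of (D : OrderData) (hM : MinkProp D.B) :
    ∃ Γ : Subgroup (SLn 3), IsUniformLattice Γ ∧ ∃ χ : Γ →* ℤˣ, χ ≠ 1 := by
  classical
  refine ⟨GamO D, ⟨GamO_discrete D, GamO_cocompact D hM⟩, ?_⟩
  obtain ⟨u, w, hu, huw, k, hk⟩ := D.unit
  choose c hc using fun γ : GamO D => γ.2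
  let χ : GamO D →* ℤˣ :=
    { toFun := fun γ => (-1 : ℤˣ) ^ (c γ k)
      map_one' := by
        have h1 := hc 1
        have h2 : c 1 = 0 := by
          apply two_smul_inj D
          rw [← h1, comb_zero, smul_zero, add_zero]
          rfl
        rw [h2]
        rfl
      map_mul' := by
        intro γ δ
        obtain ⟨e, he⟩ := D.mul (c γ) (c δ)
        have h2 : c (γ * δ) = c γ + c δ + (2:ℤ) • e := by
          apply two_smul_inj D
          rw [← hc (γ * δ)]
          have h3 : (γ * δ : GamO D).1.1 = γ.1.1 * δ.1.1 := rfl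
          rw [h3, hc γ, hc δ, comb_add, comb_add, comb_smul, ← he]
          simp only [mul_add, add_mul, one_mul, mul_one, smul_mul_assoc, mul_smul_comm, smul_add,
            smul_smul]
          push_cast
          abel
        rw [h2]
        simp only [Pi.add_apply, Pi.smul_apply, smul_eq_mul]
        rw [_root_.zpow_add, _root_.zpow_add, _root_.zpow_mul]
        have h4 : (-1 : ℤˣ) ^ (2 : ℤ) = 1 := by decide
        rw [h4, _root_.one_zpow, mul_one] }
  refine ⟨χ, fun h => ?_⟩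
  let γ : GamO D := ⟨⟨comb D.B u, hu⟩, ⟨w, by
    show comb D.B u = _
    rw [huw, two_mul, two_smul]⟩⟩
  have h1 : c γ = w := by
    apply two_smul_inj D
    rw [← hc γ]
    show comb D.B u = _
    rw [huw, two_mul, two_smul]
  have h2 : χ γ = 1 := by rw [h]; rfl
  have h3 : χ γ = (-1 : ℤˣ) ^ (c γ k) := rfl
  rw [h3, h1, hk.neg_one_zpow] at h2
  exact absurd h2 (by decide)

end lattice

end Pool.Agent.Work.MP_20070e_gt
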