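import Pool.Agent.Work.MP_20070e_gt.C5

set_option autoImplicit false

open Matrix Topology Metric ContDiff Manifold TopologicalSpace

namespace Pool.Agent.Work.MP_20070e_gt

/-- the manifold `ℝⁿ ∖ {0}` -/
def punc (n : ℕ) : Opens (Eu n) := ⟨{v | v ≠ 0}, isOpen_ne⟩

theorem lin_contDiff {n : ℕ} (g : SLn n) : ContDiff ℝ ∞ (lin g) := by
  have : lin g = ⇑(LinearMap.toContinuousLinearMap (Matrix.toEuclideanLin g.1)) := by
    funext v; rfl
  rw [this]
  exact ContinuousLinearMap.contDiff _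

/-- the twisted map of `ℝⁿ ∖ 0` attached to `g` and an exponent `k` -/
noncomputable def twist {n : ℕ} (g : SLn n) (k : ℤ) (v : Eu n) : Eu n :=
  ‖v‖ ^ k • (‖lin g v‖)⁻¹ • lin g v

theorem twist_ne_zero {n : ℕ} (g : SLn n) (k : ℤ) {v : Eu n} (hv : v ≠ 0) : twist g k v ≠ 0 := by
  have h1 := lin_ne_zero g hv
  have h2 : ‖v‖ ≠ 0 := norm_ne_zero_iff.2 hv
  have h3 : ‖lin g v‖ ≠ 0 := norm_ne_zero_iff.2 h1
  exact smul_ne_zero (zpow_ne_zero _ h2) (smul_ne_zero (inv_ne_zero h3) h1)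

theorem norm_twist {n : ℕ} (g : SLn n) (k : ℤ) {v : Eu n} (hv : v ≠ 0) :
    ‖twist g k v‖ = ‖v‖ ^ k := by
  rw [twist, norm_smul, norm_smul, norm_inv, norm_norm,
    inv_mul_cancel₀ (norm_ne_zero_iff.2 (lin_ne_zero _ hv)), mul_one, norm_zpow, norm_norm]

theorem lin_smul {n : ℕ} (g : SLn n) (a : ℝ) (v : Eu n) : lin g (a • v) = a • lin g v := by
  rw [lin_eq, lin_eq, map_smul]

theorem twist_twist {n : ℕ} (g h : SLn n) (k l : ℤ) {v : Eu n} (hv : v ≠ 0) :
    twist g k (twist h l v) = twist (g * h) (l * k) v := by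
  have h1 := lin_ne_zero h hv
  have h2 : 0 < ‖v‖ := norm_pos_iff.2 hv
  have h3 : 0 < ‖lin h v‖ := norm_pos_iff.2 h1
  have h4 : 0 < ‖lin g (lin h v)‖ := norm_pos_iff.2 (lin_ne_zero g h1)
  have h5 : lin g (twist h l v) = (‖v‖ ^ l * (‖lin h v‖)⁻¹) • lin g (lin h v) := by
    rw [twist, smul_smul, lin_smul]
  rw [twist, norm_twist h l hv, h5, twist, lin_mul, norm_smul, Real.norm_eq_abs, abs_of_pos
    (by positivity), smul_smul, smul_smul, smul_smul, ← _root_.zpow_mul]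
  congr 1
  field_simp

theorem twist_contDiffAt {n : ℕ} (g : SLn n) (k : ℤ) {v : Eu n} (hv : v ≠ 0) :
    ContDiffAt ℝ ∞ (twist g k) v := by
  have h1 := lin_ne_zero g hv
  have hl : ContDiffAt ℝ ∞ (lin g) v := (lin_contDiff g).contDiffAt
  have hn : ContDiffAt ℝ ∞ (fun v : Eu n => ‖v‖) v := contDiffAt_norm ℝ hv
  have hnl : ContDiffAt ℝ ∞ (fun v : Eu n => ‖lin g v‖) v := hl.norm ℝ h1
  have hz : ContDiffAt ℝ ∞ (fun v : Eu n => ‖v‖ ^ k) v := by
    obtain ⟨m, rfl | rfl⟩ := k.eq_nat_or_neg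
    · simpa using hn.pow m
    · simp only [_root_.zpow_neg, zpow_natCast]
      exact (hn.pow m).inv (pow_ne_zero _ (norm_ne_zero_iff.2 hv))
  exact hz.smul ((hnl.inv (norm_ne_zero_iff.2 h1)).smul hl)

/-- the twisted action on `ℝⁿ ∖ 0` -/
noncomputable def twistAction {n : ℕ} (Γ : Subgroup (SLn n)) (χ : Γ →* ℤˣ) :
    SmoothAction Γ (punc n) where
  toFun γ v := ⟨twist (γ : SLn n) ((χ γ : ℤˣ) : ℤ) v.1, twist_ne_zero _ _ v.2⟩
  map_one := by
    funext v
    apply Subtype.ext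
    have hv : (v : Eu n) ≠ 0 := v.2
    have h2 : ‖(v : Eu n)‖ ≠ 0 := norm_ne_zero_iff.2 hv
    simp only [map_one, Units.val_one, id, OneMemClass.coe_one]
    rw [twist, lin_one, zpow_one, smul_smul, mul_inv_cancel₀ h2, one_smul]
  map_mul := by
    intro γ δ
    funext v
    apply Subtype.ext
    simp only [Function.comp]
    rw [twist_twist _ _ _ _ v.2]
    congr 1
    rw [map_mul, Units.val_mul, mul_comm]
  smooth := by
    intro γ
    rw [SmoothMap, ← ContMDiff.subtypeVal_comp_iff]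
    intro v
    have h1 : ContMDiffAt (𝓡 n) (𝓡 n) ∞ (twist (γ : SLn n) ((χ γ : ℤˣ) : ℤ)) (v : Eu n) :=
      (twist_contDiffAt _ _ v.2).contMDiffAt
    exact contMDiffAt_subtype_iff.2 h1

theorem twistAction_apply {n : ℕ} (Γ : Subgroup (SLn n)) (χ : Γ →* ℤˣ) (γ : Γ) (v : punc n) :
    (((twistAction Γ χ).toFun γ v : punc n) : Eu n) =
      twist (γ : SLn n) ((χ γ : ℤˣ) : ℤ) v.1 := rfl

/-- the inclusion of the unit sphere -/
def incl (n : ℕ) (x : Sph n) : punc n := ⟨x.1, by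
  intro h
  have := x.2
  rw [mem_sphere_zero_iff_norm, h] at this
  simp at this⟩

theorem incl_smooth (m : ℕ) : IsSmoothEmbedding (M := punc (m + 1)) (incl (m + 1)) := by
  have hfact : Fact (Module.finrank ℝ (EuclideanSpace ℝ (Fin (m + 1))) = m + 1) :=
    ⟨finrank_euclideanSpace_fin⟩
  have hc : ContMDiff (𝓡 m) (𝓡 (m + 1)) ∞ (incl (m + 1)) := by
    rw [← ContMDiff.subtypeVal_comp_iff]
    exact contMDiff_coe_sphere
  refine ⟨hc, ?_, ?_⟩
  · have h1 : IsEmbedding ((Subtype.val : punc (m + 1) → Eu (m + 1)) ∘ incl (m + 1)) :=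
      IsEmbedding.subtypeVal
    exact IsEmbedding.of_comp hc.continuous continuous_subtype_val h1
  · intro x
    have h1 := mfderiv_coe_sphere_injective (n := m) (E := Eu (m + 1)) x
    have h2 : mfderiv (𝓡 m) (𝓡 (m + 1)) ((Subtype.val : punc (m + 1) → Eu (m + 1)) ∘
        incl (m + 1)) x =
        (mfderiv (𝓡 (m + 1)) (𝓡 (m + 1)) (Subtype.val : punc (m + 1) → Eu (m + 1))
          (incl (m + 1) x)).comp (mfderiv (𝓡 m) (𝓡 (m + 1)) (incl (m + 1)) x) := by
      apply mfderiv_comp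
      · exact (contMDiff_subtype_val (n := ∞)).mdifferentiable (by simp) _
      · exact hc.mdifferentiable (by simp) _
    intro a b hab
    apply h1
    have h3 : mfderiv (𝓡 m) (𝓡 (m + 1)) ((Subtype.val : punc (m + 1) → Eu (m + 1)) ∘
        incl (m + 1)) x a = mfderiv (𝓡 m) (𝓡 (m + 1)) ((Subtype.val : punc (m + 1) → Eu (m + 1)) ∘
        incl (m + 1)) x b := by
      rw [h2]
      simp only [ContinuousLinearMap.comp_apply]
      rw [hab]
    exact h3

theorem incl_equivariant {n : ℕ} (Γ : Subgroup (SLn n)) (χ : Γ →* ℤˣ) (γ : Γ) (x : Sph n) :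
    incl n (sphAct (γ : SLn n) x) = (twistAction Γ χ).toFun γ (incl n x) := by
  apply Subtype.ext
  rw [twistAction_apply]
  have hx : ‖(x : Eu n)‖ = 1 := mem_sphere_zero_iff_norm.1 x.2
  simp only [incl, sphAct, twist, hx, _root_.one_zpow, one_smul]

end Pool.Agent.Work.MP_20070e_gt
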