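import Pool.Agent.Work.MP_20070e_gt.N1

set_option autoImplicit false

open Matrix Topology Metric ContDiff Manifold TopologicalSpace

namespace Pool.Agent.Work.MP_20070e_gt

section conv

variable {n : ℕ}

/-- A (discontinuous) extension of the identity of `ℝⁿ ∖ 0` to `ℝⁿ`. -/
noncomputable def ret (x₀ : punc n) (z : Eu n) : punc n :=
  open Classical in if h : z ≠ 0 then ⟨z, h⟩ else x₀

theorem ret_of_ne (x₀ : punc n) {z : Eu n} (h : z ≠ 0) : ret x₀ z = ⟨z, h⟩ := by
  rw [ret, dif_pos h]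

theorem ret_coe (x₀ : punc n) (z : punc n) : ret x₀ (z : Eu n) = z := by
  rw [ret_of_ne x₀ z.2]

theorem ret_contMDiffAt (x₀ : punc n) {z : Eu n} (h : z ≠ 0) :
    ContMDiffAt (𝓡 n) (𝓡 n) ∞ (ret x₀) z := by
  have h1 : ContMDiffAt (𝓡 n) (𝓡 n) ∞ (fun x : punc n => ret x₀ (x : Eu n)) ⟨z, h⟩ := by
    have : (fun x : punc n => ret x₀ (x : Eu n)) = id := by
      funext x; exact ret_coe x₀ x
    rw [this]
    exact contMDiffAt_id
  exact contMDiffAt_subtype_iff.1 h1

theorem smoothOnSL_continuousOn {M : Type} [TopologicalSpace M] [ChartedSpace (Eu n) M]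
    {W : Set (SLn n × M)} {θ : SLn n × M → M} (h : SmoothOnSL W θ) : ContinuousOn θ W := by
  intro p hp
  obtain ⟨N, hN, Θ, hΘ, heq⟩ := h p hp
  have hcΘ : ContinuousAt Θ (ent p.1, p.2) := (ContMDiffOn.continuousOn hΘ).continuousAt hN
  have hc1 : ContinuousAt (fun q : SLn n × M => (ent q.1, q.2)) p :=
    ((continuous_ent.comp continuous_fst).prodMk continuous_snd).continuousAt
  have hc2 : ContinuousAt (fun q : SLn n × M => Θ (ent q.1, q.2)) p :=
    ContinuousAt.comp (g := Θ) (f := fun q : SLn n × M => (ent q.1, q.2)) hcΘ hc1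
  have hpe : Θ (ent p.1, p.2) = θ p := heq p hp (mem_of_mem_nhds hN)
  refine (hc2.continuousWithinAt (s := W)).congr_of_eventuallyEq ?_ hpe.symm
  have hN' : (fun q : SLn n × M => (ent q.1, q.2)) ⁻¹' N ∈ 𝓝 p := hc1 hN
  filter_upwards [self_mem_nhdsWithin, nhdsWithin_le_nhds hN'] with q hq hqN
  exact (heq q hq hqN).symm

/-- From a local extension on the manifold `ℝⁿ ∖ 0` to the concrete data `LocAct`. -/
theorem exists_locAct (Γ : Subgroup (SLn n)) (χ : Γ →* ℤˣ)
    (hext : HasLocalExtension (twistAction Γ χ) (Set.range (incl n))) (x₀ : punc n) :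
    ∃ A : LocAct n, A.Extends Γ χ := by
  obtain ⟨U, W, θ, -, -, hW, -, hWS, hsm, hone, hmul, hΓ⟩ := hext
  set D : Set (SLn n × Eu n) := {p | p.2 ≠ 0 ∧ (p.1, ret x₀ p.2) ∈ W} with hD
  set θ' : SLn n × Eu n → Eu n := fun p => (θ (p.1, ret x₀ p.2) : Eu n) with hθ'
  have hret : ∀ z : Eu n, z ≠ 0 → ContinuousAt (ret x₀) z := fun z hz =>
    (ret_contMDiffAt x₀ hz).continuousAt
  have hpair : ∀ p : SLn n × Eu n, p.2 ≠ 0 →
      ContinuousAt (fun q : SLn n × Eu n => (q.1, ret x₀ q.2)) p := by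
    intro p hp
    exact continuousAt_fst.prodMk
      (ContinuousAt.comp (g := ret x₀) (f := fun q : SLn n × Eu n => q.2) (hret p.2 hp)
        continuousAt_snd)
  have hθc : ContinuousOn θ W := smoothOnSL_continuousOn hsm
  have hopen : IsOpen D := by
    rw [isOpen_iff_mem_nhds]
    rintro p ⟨hp0, hpW⟩
    have h1 : {q : SLn n × Eu n | q.2 ≠ 0} ∈ 𝓝 p :=
      (isOpen_ne.preimage continuous_snd).mem_nhds hp0
    have h2 : (fun q : SLn n × Eu n => (q.1, ret x₀ q.2)) ⁻¹' W ∈ 𝓝 p :=
      hpair p hp0 (hW.mem_nhds hpW)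
    exact Filter.inter_mem h1 h2
  have hxne : ∀ x ∈ sphere (0 : Eu n) 1, x ≠ 0 := fun x hx => LocAct.ne_zero_of_mem_sphere hx
  have hincl : ∀ x (hx : x ∈ sphere (0 : Eu n) 1), ret x₀ x = incl n ⟨x, hx⟩ := by
    intro x hx
    rw [ret_of_ne x₀ (hxne x hx)]
    rfl
  have hsph : ∀ g : SLn n, ∀ x ∈ sphere (0 : Eu n) 1, (g, x) ∈ D := by
    intro g x hx
    refine ⟨hxne x hx, ?_⟩
    simp only
    rw [hincl x hx]
    exact hWS g _ ⟨_, rfl⟩
  let A : LocAct n :=
    { D := D
      θ := θ'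
      isOpen := hopen
      sph := hsph
      ne_zero := fun p _ => (θ (p.1, ret x₀ p.2)).2
      cont := by
        intro p hp
        have h1 : ContinuousAt θ (p.1, ret x₀ p.2) := hθc.continuousAt (hW.mem_nhds hp.2)
        have h2 : ContinuousAt (fun q : SLn n × Eu n => θ (q.1, ret x₀ q.2)) p :=
          ContinuousAt.comp (g := θ) (f := fun q : SLn n × Eu n => (q.1, ret x₀ q.2)) h1
            (hpair p hp.1)
        exact (continuous_subtype_val.continuousAt.comp h2).continuousWithinAt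
      smooth := by
        intro x hx
        have hxW : ((1 : SLn n), ret x₀ x) ∈ W := (hsph 1 x hx).2
        obtain ⟨N, hN, Θ, hΘ, heq⟩ := hsm _ hxW
        simp only at hN heq
        refine ⟨fun p => (Θ (p.1, ret x₀ p.2) : Eu n), ?_, ?_⟩
        · have hΘ1 : ContMDiffAt (𝓘(ℝ, Fin n → Fin n → ℝ).prod (𝓡 n)) (𝓡 n) ∞ Θ
              (ent (1 : SLn n), ret x₀ x) := ContMDiffOn.contMDiffAt hΘ hN
          have hr : ContMDiffAt (𝓘(ℝ, Fin n → Fin n → ℝ).prod (𝓡 n))
              (𝓘(ℝ, Fin n → Fin n → ℝ).prod (𝓡 n)) ∞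
              (fun p : (Fin n → Fin n → ℝ) × Eu n => (p.1, ret x₀ p.2)) (ent (1 : SLn n), x) := by
            apply ContMDiffAt.prodMk
            · exact contMDiffAt_fst
            · exact ContMDiffAt.comp (g := ret x₀)
                (f := fun p : (Fin n → Fin n → ℝ) × Eu n => p.2) _
                (ret_contMDiffAt x₀ (hxne x hx)) contMDiffAt_snd
          have h3 : ContMDiffAt (𝓘(ℝ, Fin n → Fin n → ℝ).prod (𝓡 n)) (𝓡 n) ∞
              (fun p : (Fin n → Fin n → ℝ) × Eu n => Θ (p.1, ret x₀ p.2)) (ent (1 : SLn n), x) :=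
            ContMDiffAt.comp (g := Θ)
              (f := fun p : (Fin n → Fin n → ℝ) × Eu n => (p.1, ret x₀ p.2)) _ hΘ1 hr
          have h4 : ContMDiffAt (𝓘(ℝ, Fin n → Fin n → ℝ).prod (𝓡 n)) (𝓡 n) ∞
              (fun p : (Fin n → Fin n → ℝ) × Eu n => (Θ (p.1, ret x₀ p.2) : Eu n))
              (ent (1 : SLn n), x) :=
            ContMDiffAt.comp (g := (Subtype.val : punc n → Eu n))
              (f := fun p : (Fin n → Fin n → ℝ) × Eu n => Θ (p.1, ret x₀ p.2)) _
              (contMDiff_subtype_val _) h3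
          have h5 : ContDiffAt ℝ ∞
              (fun p : (Fin n → Fin n → ℝ) × Eu n => (Θ (p.1, ret x₀ p.2) : Eu n))
              (ent (1 : SLn n), x) := by
            rw [← contMDiffAt_iff_contDiffAt]
            rw [modelWithCornersSelf_prod, ← chartedSpaceSelf_prod]
            exact h4
          exact h5.of_le (show ((2 : ℕ∞) : WithTop ℕ∞) ≤ ((⊤ : ℕ∞) : WithTop ℕ∞) from
            WithTop.coe_le_coe.2 le_top)
        · have hc : ContinuousAt (fun p : (Fin n → Fin n → ℝ) × Eu n => (p.1, ret x₀ p.2))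
              (ent (1 : SLn n), x) :=
            continuousAt_fst.prodMk
              (ContinuousAt.comp (g := ret x₀)
                (f := fun q : (Fin n → Fin n → ℝ) × Eu n => q.2) (hret x (hxne x hx))
                continuousAt_snd)
          have hN' := hc hN
          filter_upwards [hN'] with p hp g hg hgD
          have h6 := heq (g, ret x₀ p.2) hgD.2 (by simp only; rw [hg]; exact hp)
          simp only at h6
          rw [← hg]
          simp only [hθ']
          rw [h6]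
      one := by
        intro x hx
        simp only [hθ']
        rw [hone _ hx.2, ret_of_ne x₀ hx.1]
      mul := by
        intro g h x hh hg hgh
        have h1 : ret x₀ (θ' (h, x)) = θ (h, ret x₀ x) := ret_coe x₀ _
        have h2 := hmul g h (ret x₀ x) hh.2 (by
          have := hg.2
          simp only at this
          rwa [h1] at this) hgh.2
        simp only [hθ']
        rw [ret_coe x₀ (θ (h, ret x₀ x)), h2] }
  refine ⟨A, ?_⟩
  intro γ x hx
  have h1 : A.θ ((γ : SLn n), x) = (θ ((γ : SLn n), ret x₀ x) : Eu n) := rfl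
  rw [h1, hΓ γ _ hx.2, twistAction_apply, ret_of_ne x₀ hx.1]
  rfl

end conv

/-- **General theorem**: if `Γ` is a cocompact lattice of `SL_{m+1}(ℝ)`, `m ≥ 1`, with a nontrivial
character `χ : Γ → {±1}`, then the `χ`-twisted standard action on `ℝ^{m+1} ∖ 0` does not extend to a
local `G`-action near the unit sphere. -/
theorem nonExtendable {m : ℕ} (hm : 1 ≤ m) (Γ : Subgroup (SLn (m + 1))) (hΓ : IsUniformLattice Γ)
    (χ : Γ →* ℤˣ) (hχ : χ ≠ 1) : HasNonExtendableAction Γ := by
  obtain ⟨γ₀, hγ₀⟩ : ∃ γ₀ : Γ, χ γ₀ = -1 := by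
    by_contra hcon
    push Not at hcon
    apply hχ
    ext γ
    rcases Int.units_eq_one_or (χ γ) with h | h
    · rw [h]; rfl
    · exact absurd h (hcon γ)
  refine ⟨punc (m + 1), inferInstance, inferInstance, ⟨inferInstance, inferInstance,
    inferInstance⟩, twistAction Γ χ, incl (m + 1), incl_smooth m,
    fun γ x => incl_equivariant Γ χ γ x, ?_⟩
  intro hext
  obtain ⟨-, K, hK, hKΓ⟩ := hΓ
  have x₀ : punc (m + 1) := ⟨EuclideanSpace.single 0 (1 : ℝ), by
    intro h
    have := congrArg norm h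
    simp at this⟩
  obtain ⟨A, hA⟩ := exists_locAct Γ χ hext x₀
  exact hA.false (by omega) K hK hKΓ γ₀ hγ₀

end Pool.Agent.Work.MP_20070e_gt
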