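import Pool.Agent.Work.MP_20070e_gt.Defs

set_option autoImplicit false

/-!
# MP_20070e_gt : interface for the construction of a cocompact lattice in `SL_3(ℝ)`
(only definitions; no proofs)
-/

open Matrix

namespace Pool.Agent.Work.MP_20070e_gt

/-- integer combination of nine real `3 × 3` matrices -/
noncomputable def comb (B : Fin 9 → Matrix (Fin 3) (Fin 3) ℝ) (c : Fin 9 → ℤ) :
    Matrix (Fin 3) (Fin 3) ℝ := ∑ k, (c k : ℝ) • B k

/-- An order of a division algebra of degree three over `ℚ`, embedded in the real `3 × 3`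
matrices, together with a unit of norm one which is `1` modulo `2` but not modulo `4`. -/
structure OrderData where
  B : Fin 9 → Matrix (Fin 3) (Fin 3) ℝ
  indep : LinearIndependent ℝ B
  one : ∃ e : Fin 9 → ℤ, comb B e = 1
  mul : ∀ c d : Fin 9 → ℤ, ∃ e : Fin 9 → ℤ, comb B c * comb B d = comb B e
  adj : ∀ c : Fin 9 → ℤ, ∃ e : Fin 9 → ℤ, adjugate (comb B c) = comb B e
  det_int : ∀ c : Fin 9 → ℤ, ∃ z : ℤ, (comb B c).det = (z : ℝ)
  det_ne : ∀ c : Fin 9 → ℤ, c ≠ 0 → (comb B c).det ≠ 0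
  unit : ∃ u w : Fin 9 → ℤ, (comb B u).det = 1 ∧ comb B u = 1 + 2 * comb B w ∧ ∃ k, Odd (w k)

/-- Minkowski property of the lattice spanned by `B`. -/
def MinkProp (B : Fin 9 → Matrix (Fin 3) (Fin 3) ℝ) : Prop :=
  ∃ R : ℝ, 0 < R ∧ ∀ g : SLn 3, ∃ c : Fin 9 → ℤ, c ≠ 0 ∧ ∀ i j, |(g.1 * comb B c) i j| ≤ R

end Pool.Agent.Work.MP_20070e_gt
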